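import Pool.Agent.Lib.MP_89da58_nt.S.LBound

set_option autoImplicit false

/-!
Upper bounds for Dirichlet L-series to the right of `Re s = 1`.
-/

namespace Pool.Agent.MP89da58.S

open Finset

lemma sum_range_zmod {q : ℕ} [NeZero q] (f : ZMod q → ℂ) :
    ∑ i ∈ range q, f (i : ZMod q) = ∑ a : ZMod q, f a := by
  refine Finset.sum_bij' (fun i _ => (i : ZMod q)) (fun a _ => a.val) ?_ ?_ ?_ ?_ ?_
  · intro i _; exact Finset.mem_univ _
  · intro a _; exact Finset.mem_range.2 (ZMod.val_lt a)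
  · intro i hi; exact ZMod.val_cast_of_lt (Finset.mem_range.1 hi)
  · intro a _; exact ZMod.natCast_zmod_val a
  · intro i _; rfl

lemma sum_range_add_period {q : ℕ} [NeZero q] (f : ZMod q → ℂ) (hf : ∑ a : ZMod q, f a = 0)
    (m r : ℕ) : ∑ i ∈ range (q * m + r), f (i : ZMod q) = ∑ i ∈ range r, f (i : ZMod q) := by
  induction m with
  | zero => simp
  | succ m ih =>
    have e : q * (m + 1) + r = q + (q * m + r) := by ring
    rw [e, Finset.sum_range_add, sum_range_zmod, hf, zero_add]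
    rw [← ih]
    apply Finset.sum_congr rfl
    intro i _
    push_cast
    simp

lemma period_bound {q : ℕ} [NeZero q] (f : ZMod q → ℂ) (hf : ∑ a : ZMod q, f a = 0)
    (hf1 : ∀ a, ‖f a‖ ≤ 1) (n : ℕ) : ‖∑ i ∈ range n, f (i : ZMod q)‖ ≤ q := by
  have e : n = q * (n / q) + n % q := (Nat.div_add_mod n q).symm
  rw [e, sum_range_add_period f hf]
  calc _ ≤ ∑ i ∈ range (n % q), ‖f (i : ZMod q)‖ := norm_sum_le _ _
    _ ≤ ∑ i ∈ range (n % q), (1 : ℝ) := Finset.sum_le_sum (fun i _ => hf1 _)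
    _ = ((n % q : ℕ) : ℝ) := by simp
    _ ≤ q := by exact_mod_cast (Nat.mod_lt _ (Nat.pos_of_ne_zero (NeZero.ne q))).le

/-- Bounds for the derivatives of `L(s, χ)`, `χ` nonprincipal. -/
theorem norm_LjChar_le (j : ℕ) : ∃ C : ℝ, 1 ≤ C ∧ ∀ (q : ℕ), q ≠ 0 → ∀ χ : DirichletCharacter ℂ q,
    χ ≠ 1 → ∀ s : ℂ, 1 < s.re →
      ‖Lj (fun n => χ n) j s‖ ≤ C * (1 + Real.log (q * (1 + ‖s‖))) ^ (j + 1) := by
  obtain ⟨C, hC1, hC⟩ := norm_Lj_le j
  refine ⟨C, hC1, fun q hq χ hχ s hs => ?_⟩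
  have : NeZero q := ⟨hq⟩
  refine hC (fun n => χ n) q (fun n => χ.norm_le_one _) ?_ ?_ s hs
  · exact_mod_cast Nat.one_le_iff_ne_zero.2 hq
  · intro n
    exact period_bound (fun a => χ a) (χ.sum_eq_zero_of_ne_one hχ) (fun a => χ.norm_le_one a) n

lemma zeta_step {s : ℂ} (hs : 1 < s.re) {n : ℕ} (hn : 1 ≤ n) :
    ‖((n : ℝ) : ℂ) ^ (1 - s) / (s - 1) - (((n + 1 : ℕ) : ℝ) : ℂ) ^ (1 - s) / (s - 1) -
      ff 0 s n‖ ≤ ‖s‖ / (n : ℝ) ^ 2 := by
  have hn1 : (1 : ℝ) ≤ n := by exact_mod_cast hn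
  have hs1 : s - 1 ≠ 0 := by
    intro h
    have := congrArg Complex.re h
    simp at this
    linarith
  -- the difference bound for `x^(-s)`
  have hdiff : ∀ x : ℝ, (n : ℝ) ≤ x → x ≤ n + 1 → ‖ff 0 s x - ff 0 s n‖ ≤ ‖s‖ / (n : ℝ) ^ 2 := by
    intro x hx1 hx2
    have := norm_image_sub_le_of_norm_deriv_le_segment' (f := ff 0 s) (f' := ff' 0 s)
      (a := (n : ℝ)) (b := x) (C := ‖s‖ / (n : ℝ) ^ 2)
      (fun y hy => (hasDerivAt_ff (by linarith [hy.1])).hasDerivWithinAt)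
      (fun y hy => by
        have hy1 : 1 ≤ y := by linarith [hy.1]
        refine (norm_ff'_le hy1 hs.le).trans ?_
        have h3 := hy.1
        simp only [CharP.cast_eq_zero, zero_add, pow_zero, mul_one]
        gcongr)
      x (Set.right_mem_Icc.2 hx1)
    refine this.trans ?_
    have h0 : 0 ≤ ‖s‖ / (n : ℝ) ^ 2 := by positivity
    nlinarith
  set g : ℝ → ℂ := fun x => (x : ℂ) ^ (1 - s) / (s - 1) with hg
  have hgd : ∀ x : ℝ, 0 < x → HasDerivAt g (-(ff 0 s x)) x := by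
    intro x hx
    have h4 : HasDerivAt (fun y : ℂ => y ^ (1 - s)) ((1 - s) * (x : ℂ) ^ (1 - s - 1)) (x : ℂ) := by
      have := (hasDerivAt_id (x : ℂ)).cpow_const (c := 1 - s) (by
        simp only [id]
        exact Complex.ofReal_mem_slitPlane.2 hx)
      simpa using this
    have h5 := (h4.comp_ofReal).div_const (s - 1)
    have e : (1 - s) * (x : ℂ) ^ (1 - s - 1) / (s - 1) = -(ff 0 s x) := by
      unfold ff
      rw [show (1 - s - 1 : ℂ) = -s by ring, pow_zero, one_mul]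
      field_simp
      ring
    rw [e] at h5
    exact h5
  -- mean value for `x ↦ g x + (x - n) * ff 0 s n`
  have := norm_image_sub_le_of_norm_deriv_le_segment'
    (f := fun x : ℝ => g x + ((x - n : ℝ) : ℂ) * ff 0 s n)
    (f' := fun x : ℝ => -(ff 0 s x) + ((1 : ℝ) : ℂ) * ff 0 s n)
    (a := (n : ℝ)) (b := ((n + 1 : ℕ) : ℝ)) (C := ‖s‖ / (n : ℝ) ^ 2)
    (fun x hx => by
      apply HasDerivAt.hasDerivWithinAt
      apply (hgd x (by linarith [hx.1])).add
      apply HasDerivAt.mul_const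
      exact ((hasDerivAt_id x).sub_const (n : ℝ)).ofReal_comp)
    (fun x hx => by
      have h1 := hx.2
      push_cast at h1
      have h2 := hdiff x hx.1 h1.le
      have e : -(ff 0 s x) + ((1 : ℝ) : ℂ) * ff 0 s n = -(ff 0 s x - ff 0 s n) := by
        push_cast; ring
      rw [e, norm_neg]
      exact h2)
    ((n + 1 : ℕ) : ℝ) (Set.right_mem_Icc.2 (by push_cast; linarith))
  have e2 : (((n + 1 : ℕ) : ℝ) - (n : ℝ)) = 1 := by push_cast; ring
  rw [e2, mul_one] at this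
  have e3 : g ((n + 1 : ℕ) : ℝ) + (((((n + 1 : ℕ) : ℝ) - (n : ℝ) : ℝ)) : ℂ) * ff 0 s n -
      (g n + ((((n : ℝ) - (n : ℝ) : ℝ)) : ℂ) * ff 0 s n) =
      -(g n - g ((n + 1 : ℕ) : ℝ) - ff 0 s n) := by
    rw [e2]; push_cast; ring
  rw [e2] at e3
  rw [e3, norm_neg] at this
  exact this

lemma inv_sq_telescope {n : ℕ} (hn : 1 ≤ n) :
    1 / (n : ℝ) ^ 2 ≤ 2 * (1 / (n : ℝ) - 1 / ((n : ℝ) + 1)) := by
  have hn1 : (1 : ℝ) ≤ n := by exact_mod_cast hn
  have : 2 * (1 / (n : ℝ) - 1 / ((n : ℝ) + 1)) = 2 / (n * (n + 1)) := by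
    field_simp
    ring
  rw [this, div_le_div_iff₀ (by positivity) (by positivity)]
  nlinarith

lemma zeta_tail {s : ℂ} (hs : 1 < s.re) {N M : ℕ} (hN : 1 ≤ N) (hNM : N ≤ M) :
    ‖∑ n ∈ Ico N M, ff 0 s n‖ ≤ 2 / ‖s - 1‖ + 2 * ‖s‖ / N := by
  have hN1 : (1 : ℝ) ≤ N := by exact_mod_cast hN
  set g : ℕ → ℂ := fun n => ((n : ℝ) : ℂ) ^ (1 - s) / (s - 1) with hg
  have hgn : ∀ n : ℕ, 1 ≤ n → ‖g n‖ ≤ 1 / ‖s - 1‖ := by
    intro n hn
    have hn1 : (1 : ℝ) ≤ n := by exact_mod_cast hn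
    rw [hg]
    simp only [norm_div]
    rw [Complex.norm_cpow_eq_rpow_re_of_pos (by linarith)]
    apply div_le_div_of_nonneg_right _ (norm_nonneg _)
    apply Real.rpow_le_one_of_one_le_of_nonpos hn1
    simp; linarith
  have htel : ∀ M : ℕ, N ≤ M → ∑ n ∈ Ico N M, (g n - g (n + 1)) = g N - g M := by
    intro M hM
    induction M, hM using Nat.le_induction with
    | base => simp
    | succ m hm ih => rw [Finset.sum_Ico_succ_top hm, ih]; ring
  have htel2 : ∀ M : ℕ, N ≤ M → ∑ n ∈ Ico N M, (1 / (n : ℝ) - 1 / ((n : ℝ) + 1)) =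
      1 / (N : ℝ) - 1 / M := by
    intro M hM
    induction M, hM using Nat.le_induction with
    | base => simp
    | succ m hm ih =>
      rw [Finset.sum_Ico_succ_top hm, ih]
      push_cast
      ring
  have e1 : ∑ n ∈ Ico N M, ff 0 s n = (g N - g M) -
      ∑ n ∈ Ico N M, (g n - g (n + 1) - ff 0 s n) := by
    rw [← htel M hNM, ← Finset.sum_sub_distrib]
    apply Finset.sum_congr rfl
    intro n _
    ring
  have e2 : ‖∑ n ∈ Ico N M, (g n - g (n + 1) - ff 0 s n)‖ ≤ 2 * ‖s‖ / N := by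
    calc _ ≤ ∑ n ∈ Ico N M, ‖g n - g (n + 1) - ff 0 s n‖ := norm_sum_le _ _
      _ ≤ ∑ n ∈ Ico N M, 2 * ‖s‖ * (1 / (n : ℝ) - 1 / ((n : ℝ) + 1)) := by
          apply Finset.sum_le_sum
          intro n hn
          have hn1 := hN.trans (Finset.mem_Ico.1 hn).1
          refine (zeta_step hs hn1).trans ?_
          have := inv_sq_telescope hn1
          have h0 : 0 ≤ ‖s‖ := norm_nonneg s
          calc ‖s‖ / (n : ℝ) ^ 2 = ‖s‖ * (1 / (n : ℝ) ^ 2) := by ring
            _ ≤ ‖s‖ * (2 * (1 / (n : ℝ) - 1 / ((n : ℝ) + 1))) := by gcongr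
            _ = _ := by ring
      _ = 2 * ‖s‖ * (1 / (N : ℝ) - 1 / M) := by rw [← Finset.mul_sum, htel2 M hNM]
      _ ≤ 2 * ‖s‖ * (1 / (N : ℝ)) := by
          apply mul_le_mul_of_nonneg_left _ (by positivity)
          have : (0 : ℝ) ≤ 1 / M := by positivity
          linarith
      _ = _ := by ring
  rw [e1]
  calc _ ≤ ‖g N - g M‖ + ‖∑ n ∈ Ico N M, (g n - g (n + 1) - ff 0 s n)‖ := norm_sub_le _ _
    _ ≤ (1 / ‖s - 1‖ + 1 / ‖s - 1‖) + 2 * ‖s‖ / N := by
        gcongr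
        exact (norm_sub_le _ _).trans (add_le_add (hgn N hN) (hgn M (hN.trans hNM)))
    _ = _ := by ring

/-- A bound for the Riemann zeta function to the right of `Re s = 1`. -/
theorem norm_zeta_le {s : ℂ} (hs : 1 < s.re) :
    ‖LSeries 1 s‖ ≤ 4 * (1 + Real.log (1 + ‖s‖)) + 2 / ‖s - 1‖ := by
  have hs0 : s ≠ 0 := by
    rintro rfl
    simp at hs
    linarith
  have hsum : LSeriesSummable 1 s := LSeriesSummable_one_iff.2 hs
  have hlim := hsum.hasSum.tendsto_sum_nat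
  have h0 : 0 ≤ ‖s‖ := norm_nonneg s
  set N : ℕ := ⌈1 + ‖s‖⌉₊ with hN
  have hNZ : 1 + ‖s‖ ≤ N := Nat.le_ceil _
  have hN1' : (1 : ℝ) ≤ N := le_trans (by linarith) hNZ
  have hN1 : 1 ≤ N := by exact_mod_cast hN1'
  have hNup : (N : ℝ) ≤ 2 * (1 + ‖s‖) := by
    have := (Nat.ceil_lt_add_one (show (0 : ℝ) ≤ 1 + ‖s‖ by positivity)).le
    linarith
  have hlogN : Real.log N ≤ 1 + Real.log (1 + ‖s‖) := by
    calc Real.log N ≤ Real.log (2 * (1 + ‖s‖)) := Real.log_le_log (by linarith) hNup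
      _ = Real.log 2 + Real.log (1 + ‖s‖) := by
          rw [Real.log_mul (by norm_num) (by positivity)]
      _ ≤ _ := by
          have := Real.log_two_lt_d9
          linarith
  have hlog0 : 0 ≤ Real.log (1 + ‖s‖) := Real.log_nonneg (by linarith)
  have hterm : ∀ n, LSeries.term 1 s n = ff 0 s n := by
    intro n
    rcases eq_or_ne n 0 with rfl | hn
    · simp [ff, hs0]
    · rw [LSeries.term_of_ne_zero hn, ff, Complex.cpow_neg]
      simp
  have key : ∀ M : ℕ, N ≤ M → ‖∑ n ∈ range M, LSeries.term 1 s n‖ ≤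
      4 * (1 + Real.log (1 + ‖s‖)) + 2 / ‖s - 1‖ := by
    intro M hM
    have e1 : ∑ n ∈ range M, LSeries.term 1 s n =
        ∑ n ∈ range N, ff 0 s n + ∑ n ∈ Ico N M, ff 0 s n := by
      rw [Finset.sum_range_add_sum_Ico _ hM]
      exact Finset.sum_congr rfl (fun n _ => hterm n)
    rw [e1]
    have hhead : ‖∑ n ∈ range N, ff 0 s n‖ ≤ 1 + Real.log N := by
      calc ‖∑ n ∈ range N, ff 0 s n‖ ≤ ∑ n ∈ range N, ‖ff 0 s n‖ := norm_sum_le _ _
        _ = ∑ n ∈ Ico 1 N, ‖ff 0 s n‖ := by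
            rw [Finset.range_eq_Ico, ← Finset.sum_Ico_consecutive _ (Nat.zero_le 1) hN1]
            simp [ff, hs0]
        _ ≤ ∑ n ∈ Ico 1 N, (1 / (n : ℝ)) := by
            apply Finset.sum_le_sum
            intro n hn
            have hn1 : (1 : ℝ) ≤ n := by exact_mod_cast (Finset.mem_Ico.1 hn).1
            rw [norm_ff hn1, pow_zero, one_mul, one_div, ← Real.rpow_neg_one]
            apply Real.rpow_le_rpow_of_exponent_le hn1
            linarith
        _ ≤ 1 + Real.log N := sum_inv_le N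
    have htail := zeta_tail hs hN1 hM
    have htail2 : 2 * ‖s‖ / N ≤ 2 := by
      rw [div_le_iff₀ (by linarith)]
      linarith
    calc _ ≤ ‖∑ n ∈ range N, ff 0 s n‖ + ‖∑ n ∈ Ico N M, ff 0 s n‖ := norm_add_le _ _
      _ ≤ (1 + Real.log N) + (2 / ‖s - 1‖ + 2) := by
          gcongr
          exact htail.trans (by linarith)
      _ ≤ _ := by linarith
  refine le_of_tendsto hlim.norm ?_
  filter_upwards [Filter.eventually_ge_atTop N] with M hM
  exact key M hM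

/-- Bound for `L(s, χ₀)`, `χ₀` principal. -/
theorem norm_LTriv_le : ∃ C : ℝ, 1 ≤ C ∧ ∀ (q : ℕ), q ≠ 0 → ∀ s : ℂ, 1 < s.re →
      ‖LSeries (fun n => (1 : DirichletCharacter ℂ q) n) s‖ ≤
        C * (1 + Real.log (q * (1 + ‖s‖))) + 2 / ‖s - 1‖ := by
  obtain ⟨C, hC1, hC⟩ := norm_Lj_le 0
  refine ⟨C + 4, by linarith, fun q hq s hs => ?_⟩
  have : NeZero q := ⟨hq⟩
  have hq1 : (1 : ℝ) ≤ q := by exact_mod_cast Nat.one_le_iff_ne_zero.2 hq
  have hq0 : (0 : ℝ) < q := by linarith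
  set κ : ℝ := (Nat.totient q : ℝ) / q with hκ
  have hκ0 : 0 ≤ κ := by positivity
  have hκ1 : κ ≤ 1 := by
    rw [hκ, div_le_one hq0]
    exact_mod_cast Nat.totient_le q
  set f : ZMod q → ℂ := fun a => (1 : DirichletCharacter ℂ q) a - (κ : ℂ) with hf
  have hfsum : ∑ a : ZMod q, f a = 0 := by
    rw [hf, Finset.sum_sub_distrib, MulChar.sum_one_eq_card_units, Finset.sum_const,
      Finset.card_univ, ZMod.card, ZMod.card_units_eq_totient, hκ]
    push_cast
    rw [nsmul_eq_mul]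
    field_simp
    ring
  have hf1 : ∀ a, ‖f a‖ ≤ 1 := by
    intro a
    by_cases ha : IsUnit a
    · have : f a = ((1 - κ : ℝ) : ℂ) := by
        rw [hf]; simp only [MulChar.one_apply ha]; push_cast; ring
      rw [this, Complex.norm_real, Real.norm_of_nonneg (by linarith)]
      linarith
    · have : f a = ((-κ : ℝ) : ℂ) := by
        rw [hf]; simp only [MulChar.map_nonunit _ ha]; push_cast; ring
      rw [this, Complex.norm_real, norm_neg, Real.norm_of_nonneg hκ0]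
      exact hκ1
  have hb := hC (fun n => f n) q (fun n => hf1 _) hq1 (period_bound f hfsum hf1) s hs
  have h1 : LSeriesSummable (fun n : ℕ => f n) s := by
    have := summable_Lj (a := fun n => f n) (fun n => hf1 _) 0 hs
    simpa using this
  have hone : LSeriesSummable 1 s := LSeriesSummable_one_iff.2 hs
  have e : (fun n : ℕ => (1 : DirichletCharacter ℂ q) n) =
      (fun n : ℕ => f n) + (κ : ℂ) • (1 : ℕ → ℂ) := by
    funext n
    simp [hf]
  have e2 : LSeries (fun n : ℕ => (1 : DirichletCharacter ℂ q) n) s =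
      Lj (fun n => f n) 0 s + (κ : ℂ) * LSeries 1 s := by
    rw [e, LSeries_add h1 (hone.smul _), LSeries_smul]
    congr 1
    unfold Lj
    simp
  have hlog0 : 0 ≤ Real.log (q * (1 + ‖s‖)) := by
    apply Real.log_nonneg
    have : 0 ≤ ‖s‖ := norm_nonneg s
    nlinarith
  have hlog1 : Real.log (1 + ‖s‖) ≤ Real.log (q * (1 + ‖s‖)) := by
    have : 0 ≤ ‖s‖ := norm_nonneg s
    apply Real.log_le_log (by linarith)
    nlinarith
  rw [e2]
  have hz := norm_zeta_le hs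
  calc _ ≤ ‖Lj (fun n => f n) 0 s‖ + ‖(κ : ℂ) * LSeries 1 s‖ := norm_add_le _ _
    _ ≤ C * (1 + Real.log (q * (1 + ‖s‖))) ^ (0 + 1) + 1 * ‖LSeries 1 s‖ := by
        rw [norm_mul, Complex.norm_real, Real.norm_of_nonneg hκ0]
        gcongr
    _ ≤ _ := by
        rw [zero_add, pow_one, one_mul]
        linarith

end Pool.Agent.MP89da58.S
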