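import Pool.Agent.Lib.MP_89da58_nt.S.LBound

set_option autoImplicit false

/-!
Lower bounds for Dirichlet L-series to the right of `Re s = 1`.
-/

namespace Pool.Agent.MP89da58.S

open Finset

lemma Lj_zero_eq (a : ℕ → ℂ) (s : ℂ) : Lj a 0 s = LSeries a s := by
  unfold Lj
  simp

lemma hasDerivAt_LSeries_char {q : ℕ} (hq : q ≠ 0) (χ : DirichletCharacter ℂ q) {s : ℂ}
    (hs : 1 < s.re) : HasDerivAt (LSeries (fun n => χ n)) (-Lj (fun n => χ n) 1 s) s := by
  have h1 : LSeries.abscissaOfAbsConv (fun n => χ n) < s.re := by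
    rw [DirichletCharacter.absicssaOfAbsConv_eq_one hq χ]
    exact_mod_cast hs
  have h2 := LSeries_hasDerivAt h1
  have e : LSeries (LSeries.logMul (fun n => χ n)) s = Lj (fun n => χ n) 1 s := by
    unfold Lj
    apply LSeries_congr
    intro n hn
    simp [LSeries.logMul, Complex.natCast_log]
  rwa [e] at h2

/-- mean value inequality for `L(s, χ)` -/
lemma norm_LSeries_sub_le {q : ℕ} (hq : q ≠ 0) (χ : DirichletCharacter ℂ q) {s s' : ℂ} {M : ℝ}
    (hs : 1 < s.re) (hs' : 1 < s'.re)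
    (hM : ∀ z ∈ segment ℝ s s', ‖Lj (fun n => χ n) 1 z‖ ≤ M) :
    ‖LSeries (fun n => χ n) s' - LSeries (fun n => χ n) s‖ ≤ M * ‖s' - s‖ := by
  have hre : ∀ z ∈ segment ℝ s s', 1 < z.re := by
    intro z hz
    have hconv : Convex ℝ {z : ℂ | 1 < z.re} := convex_halfSpace_re_gt 1
    exact hconv.segment_subset hs hs' hz
  exact (convex_segment s s').norm_image_sub_le_of_norm_hasDerivWithin_le
    (f' := fun z => -Lj (fun n => χ n) 1 z)
    (fun z hz => (hasDerivAt_LSeries_char hq χ (hre z hz)).hasDerivWithinAt)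
    (fun z hz => by rw [norm_neg]; exact hM z hz) (left_mem_segment ℝ s s')
    (right_mem_segment ℝ s s')

/-- The 3-4-1 lower bound in a quantitative form. -/
theorem lower341 {q : ℕ} (hq : q ≠ 0) (χ : DirichletCharacter ℂ q) {t c M δ : ℝ} (hM : 1 ≤ M)
    (hδ : δ = 1 / (432 * M ^ 5)) (hc1 : 1 < c) (hcδ : c ≤ 1 + δ)
    (h1 : ∀ σ : ℝ, c ≤ σ → σ ≤ 1 + δ → ‖Lj (fun n => χ n) 1 (σ + Complex.I * t)‖ ≤ M)
    (h2 : ‖LSeries (fun n => (χ ^ 2 : DirichletCharacter ℂ q) n) (1 + δ + 2 * Complex.I * t)‖ ≤ M)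
    (h3 : ‖LSeries (fun n => (1 : DirichletCharacter ℂ q) n) (1 + δ)‖ ≤ 3 / δ) :
    1 / (432 * M ^ 4) ≤ ‖LSeries (fun n => χ n) (c + Complex.I * t)‖ := by
  have hM0 : 0 < M := by linarith
  have hδ0 : 0 < δ := by rw [hδ]; positivity
  have hprod := DirichletCharacter.norm_LSeries_product_ge_one χ hδ0 t
  rw [norm_mul, norm_mul, norm_pow, norm_pow] at hprod
  set u : ℝ := ‖LSeries (fun n => χ n) (1 + δ + Complex.I * t)‖ with hu
  have hu0 : 0 ≤ u := norm_nonneg _
  have hkey : 1 ≤ (3 / δ) ^ 3 * u ^ 4 * M := by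
    refine le_trans hprod ?_
    gcongr
  have hu4 : (2 * δ * M) ^ 4 ≤ u ^ 4 := by
    have e1 : 432 * M ^ 5 * δ = 1 := by rw [hδ]; field_simp
    have e2 : δ ^ 3 ≤ 27 * M * u ^ 4 := by
      have : (3 / δ) ^ 3 * u ^ 4 * M = 27 * M * u ^ 4 / δ ^ 3 := by
        field_simp
        ring
      rw [this, le_div_iff₀ (by positivity)] at hkey
      linarith
    have e3 : (2 * δ * M) ^ 4 * (27 * M) = δ ^ 3 := by
      calc (2 * δ * M) ^ 4 * (27 * M) = δ ^ 3 * (432 * M ^ 5 * δ) := by ring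
        _ = δ ^ 3 := by rw [e1, mul_one]
    have : (2 * δ * M) ^ 4 * (27 * M) ≤ u ^ 4 * (27 * M) := by
      rw [e3]; linarith
    exact le_of_mul_le_mul_right this (by positivity)
  have hu1 : 2 * δ * M ≤ u := le_of_pow_le_pow_left₀ (by norm_num) hu0 hu4
  -- mean value
  have hmv := norm_LSeries_sub_le hq χ (s := c + Complex.I * t) (s' := (1 + δ : ℝ) + Complex.I * t)
    (M := M) (by simpa using hc1) (by simpa using hδ0) (by
      intro z hz
      rw [segment_eq_image_lineMap] at hz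
      obtain ⟨y, hy, rfl⟩ := hz
      have e : (AffineMap.lineMap (c + Complex.I * t : ℂ) ((1 + δ : ℝ) + Complex.I * t : ℂ)) y =
          (((c + y * (1 + δ - c) : ℝ)) : ℂ) + Complex.I * t := by
        simp only [AffineMap.lineMap_apply, vsub_eq_sub, vadd_eq_add, Complex.real_smul]
        push_cast
        ring
      rw [e]
      apply h1
      · nlinarith [hy.1]
      · nlinarith [hy.2])
  have e4 : (((1 + δ : ℝ) : ℂ) + Complex.I * t - (c + Complex.I * t)) = ((1 + δ - c : ℝ) : ℂ) := by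
    push_cast; ring
  rw [e4, Complex.norm_real, Real.norm_of_nonneg (by linarith)] at hmv
  have e5 : (((1 + δ : ℝ) : ℂ) + Complex.I * t) = 1 + δ + Complex.I * t := by push_cast; ring
  rw [e5] at hmv
  have h6 : u ≤ ‖LSeries (fun n => χ n) (c + Complex.I * t)‖ +
      ‖LSeries (fun n => χ n) (1 + δ + Complex.I * t) -
        LSeries (fun n => χ n) (c + Complex.I * t)‖ := by
    rw [hu]
    exact norm_le_insert' _ _
  have h7 : M * (1 + δ - c) ≤ M * δ := by
    apply mul_le_mul_of_nonneg_left _ hM0.le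
    linarith
  have h8 : δ * M = 1 / (432 * M ^ 4) := by rw [hδ]; field_simp
  rw [← h8]
  linarith

/-- positivity of the product of four L-series -/
theorem four_product {r₁ r₂ : ℕ} (χ₁ : DirichletCharacter ℂ r₁) (χ₂ : DirichletCharacter ℂ r₂) (h₁ : χ₁ ^ 2 = 1) (h₂ : χ₂ ^ 2 = 1) {x : ℝ} (hx : 1 < x) :
    1 ≤ ‖LSeries 1 x‖ * ‖LSeries (fun n => χ₁ n) x‖ * ‖LSeries (fun n => χ₂ n) x‖ *
      ‖LSeries (fun n => (DirichletCharacter.changeLevel (dvd_mul_right r₁ r₂) χ₁ *
        DirichletCharacter.changeLevel (dvd_mul_left r₂ r₁) χ₂) n) x‖ := by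
  have hxre : 1 < (x : ℂ).re := by simpa using hx
  set χ₃ : DirichletCharacter ℂ (r₁ * r₂) :=
    DirichletCharacter.changeLevel (dvd_mul_right r₁ r₂) χ₁ *
        DirichletCharacter.changeLevel (dvd_mul_left r₂ r₁) χ₂ with hχ₃
  have hval : ∀ n : ℕ, χ₃ n = χ₁ n * χ₂ n := by
    intro n
    by_cases hn : IsUnit ((n : ℕ) : ZMod (r₁ * r₂))
    · rw [hχ₃, MulChar.mul_apply]
      have e1 := DirichletCharacter.changeLevel_eq_cast_of_dvd χ₁ (dvd_mul_right r₁ r₂) hn.unit
      have e2 := DirichletCharacter.changeLevel_eq_cast_of_dvd χ₂ (dvd_mul_left r₂ r₁) hn.unit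
      rw [hn.unit_spec] at e1 e2
      rw [e1, e2, ZMod.cast_natCast (dvd_mul_right r₁ r₂), ZMod.cast_natCast (dvd_mul_left r₂ r₁)]
    · rw [MulChar.map_nonunit _ hn]
      rw [ZMod.isUnit_iff_coprime, Nat.coprime_mul_iff_right, not_and_or] at hn
      rcases hn with hn | hn
      · have : ¬ IsUnit ((n : ℕ) : ZMod r₁) := by rwa [ZMod.isUnit_iff_coprime]
        rw [MulChar.map_nonunit _ this, zero_mul]
      · have : ¬ IsUnit ((n : ℕ) : ZMod r₂) := by rwa [ZMod.isUnit_iff_coprime]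
        rw [MulChar.map_nonunit χ₂ this, mul_zero]
  -- exponentials
  have E0 : LSeries 1 (x : ℂ) = Complex.exp (LSeries (fun (n : ℕ) =>
      (1 : DirichletCharacter ℂ 1) n * ArithmeticFunction.vonMangoldt n / Real.log n) x) := by
    rw [DirichletCharacter.LSeries_eq_exp_LSeries _ hxre, DirichletCharacter.LSeries_modOne_eq]
  have E1 := DirichletCharacter.LSeries_eq_exp_LSeries χ₁ hxre
  have E2 := DirichletCharacter.LSeries_eq_exp_LSeries χ₂ hxre
  have E3 := DirichletCharacter.LSeries_eq_exp_LSeries χ₃ hxre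
  have hsummable : ∀ {N : ℕ} (χ : DirichletCharacter ℂ N),
      LSeriesSummable (fun (n : ℕ) => χ n * ArithmeticFunction.vonMangoldt n / Real.log n) x := by
    intro N χ
    apply LSeriesSummable_of_le_const_mul_rpow (x := 1) (by simpa using hx)
    refine ⟨1, fun n hn => ?_⟩
    simp only [sub_self, Real.rpow_zero, mul_one]
    rw [norm_div, norm_mul, Complex.norm_real, Complex.norm_real]
    rcases Nat.lt_or_ge 1 n with h | h
    · have hlog : 0 < Real.log n := Real.log_pos (by exact_mod_cast h)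
      rw [Real.norm_of_nonneg hlog.le, Real.norm_of_nonneg ArithmeticFunction.vonMangoldt_nonneg,
        div_le_one hlog]
      calc ‖χ n‖ * ArithmeticFunction.vonMangoldt n ≤ 1 * Real.log n :=
            mul_le_mul (χ.norm_le_one _) ArithmeticFunction.vonMangoldt_le_log
              ArithmeticFunction.vonMangoldt_nonneg (by norm_num)
        _ = _ := one_mul _
    · have : n = 1 := by omega
      subst this
      simp
  rw [E0, ← E1, ← E2, ← E3, Complex.norm_exp, Complex.norm_exp, Complex.norm_exp, Complex.norm_exp,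
    ← Real.exp_add, ← Real.exp_add, ← Real.exp_add, Real.one_le_exp_iff]
  rw [← Complex.add_re, ← Complex.add_re, ← Complex.add_re]
  have H0 := (hsummable (1 : DirichletCharacter ℂ 1)).LSeriesHasSum
  have H1 := (hsummable χ₁).LSeriesHasSum
  have H2 := (hsummable χ₂).LSeriesHasSum
  have H3 := (hsummable χ₃).LSeriesHasSum
  have H := ((HasSum.add H0 H1).add H2).add H3
  have Hre := Complex.hasSum_re H
  refine Hre.nonneg ?_
  intro n
  rcases eq_or_ne n 0 with rfl | hn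
  · simp
  simp only [LSeries.term_of_ne_zero hn]
  have hn1 : (1 : DirichletCharacter ℂ 1) n = 1 := by
    rw [MulChar.one_apply]; exact isUnit_of_subsingleton _
  rw [hn1, hval]
  have ecpow : ((n : ℂ) ^ (x : ℂ)) = (((n : ℝ) ^ x : ℝ) : ℂ) := by
    rw [Complex.ofReal_cpow (Nat.cast_nonneg n)]; simp
  rw [ecpow]
  have hq1 : χ₁ n = 0 ∨ χ₁ n = 1 ∨ χ₁ n = -1 := MulChar.isQuadratic_iff_sq_eq_one.mpr h₁ n
  have hq2 : χ₂ n = 0 ∨ χ₂ n = 1 ∨ χ₂ n = -1 := MulChar.isQuadratic_iff_sq_eq_one.mpr h₂ n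
  set w : ℝ := ArithmeticFunction.vonMangoldt n / Real.log n / (n : ℝ) ^ x with hw
  have hw0 : 0 ≤ w := by
    apply div_nonneg (div_nonneg ArithmeticFunction.vonMangoldt_nonneg (Real.log_natCast_nonneg n))
    positivity
  have key : (1 * (ArithmeticFunction.vonMangoldt n : ℂ) / (Real.log n : ℂ) / (((n : ℝ) ^ x : ℝ) : ℂ) +
      χ₁ n * (ArithmeticFunction.vonMangoldt n : ℂ) / (Real.log n : ℂ) / (((n : ℝ) ^ x : ℝ) : ℂ) +
      χ₂ n * (ArithmeticFunction.vonMangoldt n : ℂ) / (Real.log n : ℂ) / (((n : ℝ) ^ x : ℝ) : ℂ) +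
      χ₁ n * χ₂ n * (ArithmeticFunction.vonMangoldt n : ℂ) / (Real.log n : ℂ) /
        (((n : ℝ) ^ x : ℝ) : ℂ)) = (1 + χ₁ n) * (1 + χ₂ n) * (w : ℂ) := by
    rw [hw]; push_cast; ring
  rw [key]
  rcases hq1 with h | h | h <;> rcases hq2 with h' | h' | h' <;> rw [h, h'] <;>
    norm_num <;> exact hw0

end Pool.Agent.MP89da58.S
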