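import Pool.Agent.Lib.MP_89da58_nt.Defs

set_option autoImplicit false

/-!
Fourier representation of the modified triangle function.
-/

namespace Pool.Agent.MP89da58.S

open MeasureTheory Real Set
open scoped FourierTransform

/-- two integrations by parts in one step -/
lemma parts {a b : ℝ} (hab : a ≤ b) (F F' F'' : ℝ → ℂ)
    (hF : ∀ u ∈ Icc a b, HasDerivAt F (F' u) u) (hF' : ∀ u ∈ Icc a b, HasDerivAt F' (F'' u) u)
    (hF'' : ContinuousOn F'' (Icc a b)) {β : ℂ} (hβ : β ≠ 0) :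
    ∫ u in a..b, F u * Complex.exp (β * u) =
      (F b * Complex.exp (β * b) - F a * Complex.exp (β * a)) / β -
      (F' b * Complex.exp (β * b) - F' a * Complex.exp (β * a)) / β ^ 2 +
      (1 / β ^ 2) * ∫ u in a..b, F'' u * Complex.exp (β * u) := by
  have hexp : ∀ u : ℝ, HasDerivAt (fun u : ℝ => Complex.exp (β * u)) (β * Complex.exp (β * u)) u := by
    intro u
    have h1 : HasDerivAt (fun z : ℂ => Complex.exp (β * z)) (Complex.exp (β * u) * (β * 1)) (u : ℂ) :=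
      ((hasDerivAt_id (u : ℂ)).const_mul β).cexp
    have h2 := h1.comp_ofReal
    convert h2 using 1
    ring
  have hcexp : Continuous (fun u : ℝ => Complex.exp (β * u)) := by fun_prop
  have hFc : ContinuousOn F (Icc a b) := fun u hu => (hF u hu).continuousAt.continuousWithinAt
  have huIcc : uIcc a b = Icc a b := uIcc_of_le hab
  have hint1 : IntervalIntegrable (fun u => F u * Complex.exp (β * u)) volume a b := by
    apply ContinuousOn.intervalIntegrable
    rw [huIcc]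
    exact hFc.mul hcexp.continuousOn
  have hint2 : IntervalIntegrable (fun u => F'' u * Complex.exp (β * u)) volume a b := by
    apply ContinuousOn.intervalIntegrable
    rw [huIcc]
    exact hF''.mul hcexp.continuousOn
  have key := intervalIntegral.integral_eq_sub_of_hasDerivAt
    (f := fun u : ℝ => F u * Complex.exp (β * u) / β - F' u * Complex.exp (β * u) / β ^ 2)
    (f' := fun u : ℝ => F u * Complex.exp (β * u) - (1 / β ^ 2) * (F'' u * Complex.exp (β * u)))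
    (a := a) (b := b)
    (fun u hu => by
      rw [huIcc] at hu
      have h1 : HasDerivAt (fun u : ℝ => F u * Complex.exp (β * u))
          (F' u * Complex.exp (β * u) + F u * (β * Complex.exp (β * u))) u :=
        (hF u hu).mul (hexp u)
      have h2 : HasDerivAt (fun u : ℝ => F' u * Complex.exp (β * u))
          (F'' u * Complex.exp (β * u) + F' u * (β * Complex.exp (β * u))) u :=
        (hF' u hu).mul (hexp u)
      have h3 : HasDerivAt (fun u : ℝ => F u * Complex.exp (β * u) / β -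
          F' u * Complex.exp (β * u) / β ^ 2)
          ((F' u * Complex.exp (β * u) + F u * (β * Complex.exp (β * u))) / β -
          (F'' u * Complex.exp (β * u) + F' u * (β * Complex.exp (β * u))) / β ^ 2) u :=
        (h1.div_const β).sub (h2.div_const (β ^ 2))
      refine h3.congr_deriv ?_
      field_simp
      ring)
    (hint1.sub (hint2.const_mul _))
  rw [intervalIntegral.integral_sub hint1 (hint2.const_mul _), intervalIntegral.integral_const_mul] at key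
  have : ∫ u in a..b, F u * Complex.exp (β * u) =
      ((∫ u in a..b, F u * Complex.exp (β * u)) - (1 / β ^ 2) * ∫ u in a..b, F'' u * Complex.exp (β * u))
      + (1 / β ^ 2) * ∫ u in a..b, F'' u * Complex.exp (β * u) := by ring
  rw [this, key]
  ring

/-- the function `(1 + u/L)^(-k)` and its derivatives -/
noncomputable def hk (L : ℝ) (k : ℕ) (u : ℝ) : ℝ := (1 + u / L) ^ (-(k : ℤ))
noncomputable def hk' (L : ℝ) (k : ℕ) (u : ℝ) : ℝ := (-(k : ℤ) : ℤ) * (1 + u / L) ^ (-(k : ℤ) - 1) * (1 / L)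
noncomputable def hk'' (L : ℝ) (k : ℕ) (u : ℝ) : ℝ :=
  (-(k : ℤ) : ℤ) * (((-(k : ℤ) - 1 : ℤ)) * (1 + u / L) ^ (-(k : ℤ) - 1 - 1) * (1 / L)) * (1 / L)

lemma base_pos {L u : ℝ} (hL : 2 ≤ L) (hu : |u| ≤ 1) : 1 / 2 ≤ 1 + u / L := by
  have hL0 : 0 < L := by linarith
  have h1 : -(1 / 2) ≤ u / L := by
    rw [le_div_iff₀ hL0]
    have := (abs_le.1 hu).1
    linarith
  linarith

lemma hasDerivAt_hk {L : ℝ} (k : ℕ) {u : ℝ} (hL : 2 ≤ L) (hu : |u| ≤ 1) :
    HasDerivAt (hk L k) (hk' L k u) u := by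
  have hb : 1 + u / L ≠ 0 := by linarith [base_pos hL hu]
  have h1 : HasDerivAt (fun u : ℝ => 1 + u / L) (1 / L) u :=
    ((hasDerivAt_id u).div_const L).const_add 1
  exact (hasDerivAt_zpow (-(k : ℤ)) (1 + u / L) (Or.inl hb)).comp u h1

lemma hasDerivAt_hk' {L : ℝ} (k : ℕ) {u : ℝ} (hL : 2 ≤ L) (hu : |u| ≤ 1) :
    HasDerivAt (hk' L k) (hk'' L k u) u := by
  have hb : 1 + u / L ≠ 0 := by linarith [base_pos hL hu]
  have h1 : HasDerivAt (fun u : ℝ => 1 + u / L) (1 / L) u :=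
    ((hasDerivAt_id u).div_const L).const_add 1
  have h2 := (hasDerivAt_zpow (-(k : ℤ) - 1) (1 + u / L) (Or.inl hb)).comp u h1
  exact (h2.const_mul _).mul_const _

lemma zpow_bound {v : ℝ} (hv : 1 / 2 ≤ v) (n : ℕ) : |v ^ (-(n : ℤ))| ≤ 2 ^ n := by
  have hv0 : 0 < v := by linarith
  rw [abs_of_pos (zpow_pos hv0 _), zpow_neg, zpow_natCast, ← inv_pow]
  apply pow_le_pow_left₀ (by positivity)
  rw [inv_le_comm₀ hv0 (by norm_num)]
  linarith

/-- the common bound for everything -/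
noncomputable def MB (k : ℕ) : ℝ := 2 ^ k * ((k : ℝ) + 3) ^ 2

lemma hk_bound {L : ℝ} (k : ℕ) {u : ℝ} (hL : 2 ≤ L) (hu : |u| ≤ 1) :
    |hk L k u| ≤ 2 ^ k ∧ |hk' L k u| ≤ k * 2 ^ k ∧ |hk'' L k u| ≤ k * (k + 1) * 2 ^ k := by
  have hb := base_pos hL hu
  have hL0 : 0 < L := by linarith
  have hLi : |1 / L| ≤ 1 / 2 := by
    rw [abs_of_pos (by positivity)]
    exact one_div_le_one_div_of_le (by norm_num) hL
  have hk0 : (0 : ℝ) ≤ k := Nat.cast_nonneg k
  refine ⟨zpow_bound hb k, ?_, ?_⟩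
  · unfold hk'
    have e : -(k : ℤ) - 1 = -((k + 1 : ℕ) : ℤ) := by push_cast; ring
    rw [abs_mul, abs_mul, e]
    have h1 := zpow_bound hb (k + 1)
    have h2 : |(((-(k : ℤ) : ℤ)) : ℝ)| = k := by push_cast; rw [abs_neg, abs_of_nonneg hk0]
    rw [h2]
    calc (k : ℝ) * |(1 + u / L) ^ (-((k + 1 : ℕ) : ℤ))| * |1 / L| ≤ k * 2 ^ (k + 1) * (1 / 2) := by
          gcongr
      _ = _ := by ring
  · unfold hk''
    have e : -(k : ℤ) - 1 - 1 = -((k + 2 : ℕ) : ℤ) := by push_cast; ring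
    rw [abs_mul, abs_mul, abs_mul, abs_mul, e]
    have h1 := zpow_bound hb (k + 2)
    have h2 : |(((-(k : ℤ) : ℤ)) : ℝ)| = k := by push_cast; rw [abs_neg, abs_of_nonneg hk0]
    have h3 : |(((-(k : ℤ) - 1 : ℤ)) : ℝ)| = k + 1 := by
      push_cast
      rw [show (-(k : ℝ) - 1) = -((k : ℝ) + 1) by ring, abs_neg, abs_of_nonneg (by linarith)]
    rw [h2, h3]
    calc (k : ℝ) * ((k + 1) * |(1 + u / L) ^ (-((k + 2 : ℕ) : ℤ))| * |1 / L|) * |1 / L| ≤
          k * ((k + 1) * 2 ^ (k + 2) * (1 / 2)) * (1 / 2) := by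
          gcongr
      _ = _ := by ring

/-- the weight function, continuous version -/
noncomputable def gk (L : ℝ) (k : ℕ) (u : ℝ) : ℂ :=
  ((tri u * ((max (1 / 2) (1 + u / L)) ^ k)⁻¹ : ℝ) : ℂ)

lemma tri_of_abs_ge {u : ℝ} (hu : 1 ≤ |u|) : tri u = 0 := by
  unfold tri
  exact max_eq_left (by linarith)

lemma tri_of_abs_le {u : ℝ} (hu : |u| ≤ 1) : tri u = 1 - |u| := by
  unfold tri
  exact max_eq_right (by linarith)

lemma tri_nonneg (u : ℝ) : 0 ≤ tri u := le_max_left _ _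

lemma tri_le_one (u : ℝ) : tri u ≤ 1 := by
  unfold tri
  apply max_le (by norm_num)
  have := abs_nonneg u
  linarith

lemma continuous_tri : Continuous tri := by
  unfold tri
  fun_prop

lemma gk_eq {L : ℝ} (k : ℕ) {u : ℝ} (hL : 2 ≤ L) (hu : |u| ≤ 1) :
    gk L k u = (((1 - |u|) * hk L k u : ℝ) : ℂ) := by
  unfold gk hk
  rw [tri_of_abs_le hu, max_eq_right (base_pos hL hu), zpow_neg, zpow_natCast]

lemma gk_eq_zero (L : ℝ) (k : ℕ) {u : ℝ} (hu : 1 ≤ |u|) : gk L k u = 0 := by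
  unfold gk
  rw [tri_of_abs_ge hu]
  simp

lemma continuous_gk (L : ℝ) (k : ℕ) : Continuous (gk L k) := by
  unfold gk
  apply Complex.continuous_ofReal.comp
  apply continuous_tri.mul
  apply Continuous.inv₀
  · fun_prop
  · intro u
    have : (0 : ℝ) < max (1 / 2) (1 + u / L) := lt_of_lt_of_le (by norm_num) (le_max_left _ _)
    positivity

lemma hasCompactSupport_gk (L : ℝ) (k : ℕ) : HasCompactSupport (gk L k) := by
  apply HasCompactSupport.intro (isCompact_Icc (a := (-1 : ℝ)) (b := 1))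
  intro u hu
  apply gk_eq_zero
  by_contra h
  rw [not_le, abs_lt] at h
  exact hu ⟨h.1.le, h.2.le⟩

lemma integrable_gk (L : ℝ) (k : ℕ) : Integrable (gk L k) :=
  (continuous_gk L k).integrable_of_hasCompactSupport (hasCompactSupport_gk L k)

lemma norm_gk_le (L : ℝ) (k : ℕ) (u : ℝ) : ‖gk L k u‖ ≤ 2 ^ k := by
  unfold gk
  have h0 : (0 : ℝ) < max (1 / 2) (1 + u / L) := lt_of_lt_of_le (by norm_num) (le_max_left _ _)
  rw [Complex.norm_real, Real.norm_of_nonneg (mul_nonneg (tri_nonneg u) (by positivity))]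
  calc tri u * ((max (1 / 2) (1 + u / L)) ^ k)⁻¹ ≤ 1 * 2 ^ k := by
        apply mul_le_mul (tri_le_one u) _ (by positivity) (by norm_num)
        rw [← inv_pow]
        apply pow_le_pow_left₀ (by positivity)
        rw [inv_le_comm₀ h0 (by norm_num)]
        have := le_max_left (1 / 2) (1 + u / L)
        linarith
    _ = _ := one_mul _

/-- the norm of the Fourier transform, first bound -/
lemma norm_fourier_gk_le_one (L : ℝ) (k : ℕ) (w : ℝ) : ‖𝓕 (gk L k) w‖ ≤ 2 * 2 ^ k := by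
  rw [Real.fourier_real_eq_integral_exp_smul]
  have h1 : ∫ v : ℝ, Complex.exp (↑(-2 * π * v * w) * Complex.I) • gk L k v =
      ∫ v in Icc (-1 : ℝ) 1, Complex.exp (↑(-2 * π * v * w) * Complex.I) • gk L k v := by
    rw [setIntegral_eq_integral_of_forall_compl_eq_zero]
    intro v hv
    rw [gk_eq_zero, smul_zero]
    by_contra h
    rw [not_le, abs_lt] at h
    exact hv ⟨h.1.le, h.2.le⟩
  rw [h1]
  have h2 := norm_setIntegral_le_of_norm_le_const (μ := volume) (s := Icc (-1 : ℝ) 1)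
    (f := fun v : ℝ => Complex.exp (↑(-2 * π * v * w) * Complex.I) • gk L k v) (C := 2 ^ k)
    (by simp) (fun v _ => by
      rw [norm_smul, Complex.norm_exp_ofReal_mul_I, one_mul]
      exact norm_gk_le L k v)
  refine h2.trans ?_
  rw [Real.volume_real_Icc_of_le (by norm_num)]
  linarith

/-- the pieces `(1 + σ u) (1 + u/L)^(-k)` -/
noncomputable def Fs (L σ : ℝ) (k : ℕ) (u : ℝ) : ℂ := (((1 + σ * u) * hk L k u : ℝ) : ℂ)
noncomputable def Fs' (L σ : ℝ) (k : ℕ) (u : ℝ) : ℂ :=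
  ((σ * hk L k u + (1 + σ * u) * hk' L k u : ℝ) : ℂ)
noncomputable def Fs'' (L σ : ℝ) (k : ℕ) (u : ℝ) : ℂ :=
  ((σ * hk' L k u + (σ * hk' L k u + (1 + σ * u) * hk'' L k u) : ℝ) : ℂ)

lemma hasDerivAt_Fs {L : ℝ} (σ : ℝ) (k : ℕ) {u : ℝ} (hL : 2 ≤ L) (hu : |u| ≤ 1) :
    HasDerivAt (Fs L σ k) (Fs' L σ k u) u := by
  apply HasDerivAt.ofReal_comp
  have h1 : HasDerivAt (fun u : ℝ => 1 + σ * u) σ u := by
    have := ((hasDerivAt_id u).const_mul σ).const_add 1
    simpa using this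
  exact h1.mul (hasDerivAt_hk k hL hu)

lemma hasDerivAt_Fs' {L : ℝ} (σ : ℝ) (k : ℕ) {u : ℝ} (hL : 2 ≤ L) (hu : |u| ≤ 1) :
    HasDerivAt (Fs' L σ k) (Fs'' L σ k u) u := by
  apply HasDerivAt.ofReal_comp
  have h1 : HasDerivAt (fun u : ℝ => 1 + σ * u) σ u := by
    have := ((hasDerivAt_id u).const_mul σ).const_add 1
    simpa using this
  exact ((hasDerivAt_hk k hL hu).const_mul σ).add (h1.mul (hasDerivAt_hk' k hL hu))

lemma MB_pos (k : ℕ) : 0 < MB k := by unfold MB; positivity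

lemma norm_Fs'_le {L σ : ℝ} (hσ : |σ| = 1) (k : ℕ) {u : ℝ} (hL : 2 ≤ L) (hu : |u| ≤ 1) :
    ‖Fs' L σ k u‖ ≤ MB k := by
  obtain ⟨h0, h1, h2⟩ := hk_bound k hL hu
  unfold Fs'
  rw [Complex.norm_real]
  have hσu : |1 + σ * u| ≤ 2 := by
    calc |1 + σ * u| ≤ |1| + |σ * u| := abs_add_le _ _
      _ ≤ 1 + 1 * 1 := by rw [abs_one, abs_mul, hσ]; gcongr
      _ = 2 := by norm_num
  have hk0 : (0 : ℝ) ≤ k := Nat.cast_nonneg k
  have h2k : (0 : ℝ) < 2 ^ k := by positivity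
  calc ‖σ * hk L k u + (1 + σ * u) * hk' L k u‖ ≤ |σ| * |hk L k u| + |1 + σ * u| * |hk' L k u| := by
        rw [Real.norm_eq_abs, ← abs_mul, ← abs_mul]
        exact abs_add_le _ _
    _ ≤ 1 * 2 ^ k + 2 * (k * 2 ^ k) := by
        rw [hσ]
        gcongr
    _ ≤ MB k := by
        unfold MB
        nlinarith [mul_nonneg hk0 h2k.le, mul_nonneg (mul_nonneg hk0 hk0) h2k.le]

lemma norm_Fs''_le {L σ : ℝ} (hσ : |σ| = 1) (k : ℕ) {u : ℝ} (hL : 2 ≤ L) (hu : |u| ≤ 1) :
    ‖Fs'' L σ k u‖ ≤ 2 * MB k := by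
  obtain ⟨h0, h1, h2⟩ := hk_bound k hL hu
  unfold Fs''
  rw [Complex.norm_real]
  have hσu : |1 + σ * u| ≤ 2 := by
    calc |1 + σ * u| ≤ |1| + |σ * u| := abs_add_le _ _
      _ ≤ 1 + 1 * 1 := by rw [abs_one, abs_mul, hσ]; gcongr
      _ = 2 := by norm_num
  have hk0 : (0 : ℝ) ≤ k := Nat.cast_nonneg k
  have h2k : (0 : ℝ) < 2 ^ k := by positivity
  calc ‖σ * hk' L k u + (σ * hk' L k u + (1 + σ * u) * hk'' L k u)‖ ≤
        |σ| * |hk' L k u| + (|σ| * |hk' L k u| + |1 + σ * u| * |hk'' L k u|) := by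
        rw [Real.norm_eq_abs, ← abs_mul, ← abs_mul]
        refine (abs_add_le _ _).trans ?_
        gcongr
        exact abs_add_le _ _
    _ ≤ 1 * (k * 2 ^ k) + (1 * (k * 2 ^ k) + 2 * (k * (k + 1) * 2 ^ k)) := by
        rw [hσ]
        gcongr
    _ ≤ 2 * MB k := by
        unfold MB
        nlinarith [mul_nonneg hk0 h2k.le, mul_nonneg (mul_nonneg hk0 hk0) h2k.le]

lemma continuousOn_Fs'' {L : ℝ} (σ : ℝ) (k : ℕ) (hL : 2 ≤ L) {a b : ℝ} (ha : -1 ≤ a) (hb : b ≤ 1) :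
    ContinuousOn (Fs'' L σ k) (Icc a b) := by
  have hbase : ∀ u ∈ Icc a b, 1 + u / L ≠ 0 := by
    intro u hu
    have : |u| ≤ 1 := abs_le.2 ⟨by linarith [hu.1], by linarith [hu.2]⟩
    linarith [base_pos hL this]
  unfold Fs'' hk' hk''
  apply Complex.continuous_ofReal.comp_continuousOn
  have hz : ∀ n : ℤ, ContinuousOn (fun u : ℝ => (1 + u / L) ^ n) (Icc a b) := by
    intro n
    apply ContinuousOn.zpow₀
    · fun_prop
    · intro u hu
      exact Or.inl (hbase u hu)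
  have h1 := hz (-(k : ℤ) - 1)
  have h2 := hz (-(k : ℤ) - 1 - 1)
  have h3 : ContinuousOn (fun u : ℝ => 1 + σ * u) (Icc a b) := by fun_prop
  have g1 : ContinuousOn (fun u : ℝ => ((-(k : ℤ) : ℤ) : ℝ) * (1 + u / L) ^ (-(k : ℤ) - 1) *
      (1 / L)) (Icc a b) := (continuousOn_const.mul h1).mul continuousOn_const
  have g2 : ContinuousOn (fun u : ℝ => ((-(k : ℤ) : ℤ) : ℝ) * (((-(k : ℤ) - 1 : ℤ) : ℝ) *
      (1 + u / L) ^ (-(k : ℤ) - 1 - 1) * (1 / L)) * (1 / L)) (Icc a b) :=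
    (continuousOn_const.mul ((continuousOn_const.mul h2).mul continuousOn_const)).mul
      continuousOn_const
  exact (continuousOn_const.mul g1).add ((continuousOn_const.mul g1).add (h3.mul g2))

/-- the norm of the Fourier transform, second bound -/
lemma norm_fourier_gk_le_sq {L : ℝ} (k : ℕ) (hL : 2 ≤ L) {w : ℝ} (hw : w ≠ 0) :
    ‖𝓕 (gk L k) w‖ ≤ MB k / w ^ 2 := by
  rw [Real.fourier_real_eq_integral_exp_smul]
  set β : ℂ := ((-2 * π * w : ℝ) : ℂ) * Complex.I with hβ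
  have hβn : ‖β‖ = 2 * π * |w| := by
    rw [hβ, norm_mul, Complex.norm_I, mul_one, Complex.norm_real, Real.norm_eq_abs, abs_mul, abs_mul]
    rw [abs_neg, abs_of_pos (by norm_num : (0 : ℝ) < 2), abs_of_pos Real.pi_pos]
  have hw0 : 0 < |w| := abs_pos.2 hw
  have hβ0 : β ≠ 0 := by
    rw [← norm_pos_iff, hβn]
    positivity
  have hexpn : ∀ u : ℝ, ‖Complex.exp (β * u)‖ = 1 := by
    intro u
    have : β * u = ((-2 * π * w * u : ℝ) : ℂ) * Complex.I := by rw [hβ]; push_cast; ring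
    rw [this, Complex.norm_exp_ofReal_mul_I]
  -- reduce to the interval
  have h1 : ∫ v : ℝ, Complex.exp (↑(-2 * π * v * w) * Complex.I) • gk L k v =
      ∫ v in (-1 : ℝ)..1, gk L k v * Complex.exp (β * v) := by
    rw [intervalIntegral.integral_of_le (by norm_num),
      ← setIntegral_eq_integral_of_forall_compl_eq_zero (s := Ioc (-1 : ℝ) 1)]
    · apply setIntegral_congr_fun measurableSet_Ioc
      intro v _
      simp only [smul_eq_mul]
      rw [mul_comm]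
      congr 2
      rw [hβ]; push_cast; ring
    · intro v hv
      rw [gk_eq_zero, smul_zero]
      by_contra h
      rw [not_le, abs_lt] at h
      exact hv ⟨h.1, h.2.le⟩
  have hcint : ∀ a b : ℝ, IntervalIntegrable (fun v : ℝ => gk L k v * Complex.exp (β * v)) volume a b := by
    intro a b
    apply Continuous.intervalIntegrable
    exact (continuous_gk L k).mul (by fun_prop)
  rw [h1, ← intervalIntegral.integral_add_adjacent_intervals (hcint (-1) 0) (hcint 0 1)]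
  have e1 : ∫ v in (-1 : ℝ)..0, gk L k v * Complex.exp (β * v) =
      ∫ v in (-1 : ℝ)..0, Fs L 1 k v * Complex.exp (β * v) := by
    apply intervalIntegral.integral_congr
    intro v hv
    rw [uIcc_of_le (by norm_num)] at hv
    have hv1 : |v| ≤ 1 := abs_le.2 ⟨hv.1, by linarith [hv.2]⟩
    simp only
    rw [gk_eq k hL hv1, Fs, abs_of_nonpos hv.2]
    congr 3
    ring
  have e2 : ∫ v in (0 : ℝ)..1, gk L k v * Complex.exp (β * v) =
      ∫ v in (0 : ℝ)..1, Fs L (-1) k v * Complex.exp (β * v) := by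
    apply intervalIntegral.integral_congr
    intro v hv
    rw [uIcc_of_le (by norm_num)] at hv
    have hv1 : |v| ≤ 1 := abs_le.2 ⟨by linarith [hv.1], hv.2⟩
    simp only
    rw [gk_eq k hL hv1, Fs, abs_of_nonneg hv.1]
    congr 3
    ring
  have p1 := parts (a := -1) (b := 0) (by norm_num) (Fs L 1 k) (Fs' L 1 k) (Fs'' L 1 k)
    (fun u hu => hasDerivAt_Fs 1 k hL (abs_le.2 ⟨hu.1, by linarith [hu.2]⟩))
    (fun u hu => hasDerivAt_Fs' 1 k hL (abs_le.2 ⟨hu.1, by linarith [hu.2]⟩))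
    (continuousOn_Fs'' 1 k hL (by norm_num) (by norm_num)) hβ0
  have p2 := parts (a := 0) (b := 1) (by norm_num) (Fs L (-1) k) (Fs' L (-1) k) (Fs'' L (-1) k)
    (fun u hu => hasDerivAt_Fs (-1) k hL (abs_le.2 ⟨by linarith [hu.1], hu.2⟩))
    (fun u hu => hasDerivAt_Fs' (-1) k hL (abs_le.2 ⟨by linarith [hu.1], hu.2⟩))
    (continuousOn_Fs'' (-1) k hL (by norm_num) (by norm_num)) hβ0
  have v1 : Fs L 1 k (-1) = 0 := by unfold Fs; simp
  have v2 : Fs L 1 k 0 = Fs L (-1) k 0 := by unfold Fs; simp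
  have v3 : Fs L (-1) k 1 = 0 := by unfold Fs; simp
  set I1 : ℂ := ∫ u in (-1 : ℝ)..0, Fs'' L 1 k u * Complex.exp (β * u) with hI1
  set I2 : ℂ := ∫ u in (0 : ℝ)..1, Fs'' L (-1) k u * Complex.exp (β * u) with hI2
  have hcomb : (∫ v in (-1 : ℝ)..0, gk L k v * Complex.exp (β * v)) +
      (∫ v in (0 : ℝ)..1, gk L k v * Complex.exp (β * v)) =
      (1 / β ^ 2) * ((Fs' L 1 k (-1) * Complex.exp (β * ((-1 : ℝ) : ℂ)) -
        Fs' L 1 k 0 * Complex.exp (β * ((0 : ℝ) : ℂ))) +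
        (Fs' L (-1) k 0 * Complex.exp (β * ((0 : ℝ) : ℂ)) -
        Fs' L (-1) k 1 * Complex.exp (β * ((1 : ℝ) : ℂ))) + I1 + I2) := by
    rw [e1, e2, p1, p2, v1, v2, v3]; ring
  rw [hcomb, norm_mul, norm_div, norm_one, norm_pow, hβn]
  have b1 : ∀ (σ u : ℝ), |σ| = 1 → |u| ≤ 1 → ‖Fs' L σ k u * Complex.exp (β * (u : ℂ))‖ ≤ MB k := by
    intro σ u hσ hu
    rw [norm_mul, hexpn, mul_one]
    exact norm_Fs'_le hσ k hL hu
  have b2 : ‖I1‖ ≤ 2 * MB k * |0 - (-1)| := by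
    apply intervalIntegral.norm_integral_le_of_norm_le_const
    intro u hu
    rw [uIoc_of_le (by norm_num)] at hu
    rw [norm_mul, hexpn, mul_one]
    exact norm_Fs''_le (by simp) k hL (abs_le.2 ⟨hu.1.le, by linarith [hu.2]⟩)
  have b3 : ‖I2‖ ≤ 2 * MB k * |1 - 0| := by
    apply intervalIntegral.norm_integral_le_of_norm_le_const
    intro u hu
    rw [uIoc_of_le (by norm_num)] at hu
    rw [norm_mul, hexpn, mul_one]
    exact norm_Fs''_le (by simp) k hL (abs_le.2 ⟨by linarith [hu.1], hu.2⟩)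
  have hin : ‖(Fs' L 1 k (-1) * Complex.exp (β * ((-1 : ℝ) : ℂ)) -
        Fs' L 1 k 0 * Complex.exp (β * ((0 : ℝ) : ℂ))) +
        (Fs' L (-1) k 0 * Complex.exp (β * ((0 : ℝ) : ℂ)) -
        Fs' L (-1) k 1 * Complex.exp (β * ((1 : ℝ) : ℂ))) + I1 + I2‖ ≤ 8 * MB k := by
    have q1 := b1 1 (-1) (by simp) (by simp)
    have q2 := b1 1 0 (by simp) (by simp)
    have q3 := b1 (-1) 0 (by simp) (by simp)
    have q4 := b1 (-1) 1 (by simp) (by simp)
    have b2' : ‖I1‖ ≤ 2 * MB k := by simpa using b2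
    have b3' : ‖I2‖ ≤ 2 * MB k := by simpa using b3
    have n1 := norm_add_le ((Fs' L 1 k (-1) * Complex.exp (β * ((-1 : ℝ) : ℂ)) -
        Fs' L 1 k 0 * Complex.exp (β * ((0 : ℝ) : ℂ))) +
        (Fs' L (-1) k 0 * Complex.exp (β * ((0 : ℝ) : ℂ)) -
        Fs' L (-1) k 1 * Complex.exp (β * ((1 : ℝ) : ℂ))) + I1) I2
    have n2 := norm_add_le ((Fs' L 1 k (-1) * Complex.exp (β * ((-1 : ℝ) : ℂ)) -
        Fs' L 1 k 0 * Complex.exp (β * ((0 : ℝ) : ℂ))) +
        (Fs' L (-1) k 0 * Complex.exp (β * ((0 : ℝ) : ℂ)) -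
        Fs' L (-1) k 1 * Complex.exp (β * ((1 : ℝ) : ℂ)))) I1
    have n3 := norm_add_le (Fs' L 1 k (-1) * Complex.exp (β * ((-1 : ℝ) : ℂ)) -
        Fs' L 1 k 0 * Complex.exp (β * ((0 : ℝ) : ℂ)))
        (Fs' L (-1) k 0 * Complex.exp (β * ((0 : ℝ) : ℂ)) -
        Fs' L (-1) k 1 * Complex.exp (β * ((1 : ℝ) : ℂ)))
    have n4 := norm_sub_le (Fs' L 1 k (-1) * Complex.exp (β * ((-1 : ℝ) : ℂ)))
        (Fs' L 1 k 0 * Complex.exp (β * ((0 : ℝ) : ℂ)))
    have n5 := norm_sub_le (Fs' L (-1) k 0 * Complex.exp (β * ((0 : ℝ) : ℂ)))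
        (Fs' L (-1) k 1 * Complex.exp (β * ((1 : ℝ) : ℂ)))
    linarith
  have hM := MB_pos k
  have hpi : 3 < π := Real.pi_gt_three
  calc 1 / (2 * π * |w|) ^ 2 * _ ≤ 1 / (2 * π * |w|) ^ 2 * (8 * MB k) := by
        apply mul_le_mul_of_nonneg_left hin (by positivity)
    _ = (8 / (4 * π ^ 2)) * (MB k / w ^ 2) := by
        rw [mul_pow, sq_abs]
        field_simp
        ring
    _ ≤ 1 * (MB k / w ^ 2) := by
        apply mul_le_mul_of_nonneg_right _ (by positivity)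
        rw [div_le_one (by positivity)]
        nlinarith
    _ = _ := one_mul _

theorem norm_fourier_gk_le {L : ℝ} (k : ℕ) (hL : 2 ≤ L) (w : ℝ) :
    ‖𝓕 (gk L k) w‖ ≤ 2 * MB k * (1 + w ^ 2)⁻¹ := by
  have hM := MB_pos k
  rcases le_or_gt (w ^ 2) 1 with h | h
  · refine (norm_fourier_gk_le_one L k w).trans ?_
    have h1 : (2 : ℝ) ^ k ≤ MB k / 2 := by
      unfold MB
      have hk0 : (0 : ℝ) ≤ k := Nat.cast_nonneg k
      have h2k : (0 : ℝ) < 2 ^ k := by positivity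
      nlinarith [mul_nonneg hk0 h2k.le, mul_nonneg (mul_nonneg hk0 hk0) h2k.le]
    have h2 : (1 : ℝ) / 2 ≤ (1 + w ^ 2)⁻¹ := by
      rw [one_div]
      apply inv_anti₀ (by positivity)
      linarith
    calc 2 * 2 ^ k ≤ 2 * (MB k / 2) := by gcongr
      _ = 2 * MB k * (1 / 2) := by ring
      _ ≤ 2 * MB k * (1 + w ^ 2)⁻¹ := by gcongr
  · have hw : w ≠ 0 := by
      rintro rfl
      norm_num at h
    refine (norm_fourier_gk_le_sq k hL hw).trans ?_
    rw [← div_eq_mul_inv, div_le_div_iff₀ (by positivity) (by positivity)]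
    nlinarith

lemma continuous_fourier_gk (L : ℝ) (k : ℕ) : Continuous (𝓕 (gk L k)) :=
  VectorFourier.fourierIntegral_continuous Real.continuous_fourierChar
    (by exact (innerSL ℝ).continuous₂) (integrable_gk L k)

lemma integrable_fourier_gk {L : ℝ} (k : ℕ) (hL : 2 ≤ L) : Integrable (𝓕 (gk L k)) := by
  apply Integrable.mono' (integrable_inv_one_add_sq.const_mul (2 * MB k))
    (continuous_fourier_gk L k).aestronglyMeasurable
  exact Filter.Eventually.of_forall (fun w => norm_fourier_gk_le k hL w)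

theorem gk_inversion {L : ℝ} (k : ℕ) (hL : 2 ≤ L) (u : ℝ) :
    gk L k u = ∫ w : ℝ, Complex.exp (((2 * π * (w * u) : ℝ) : ℂ) * Complex.I) * 𝓕 (gk L k) w := by
  have h := congrFun (Continuous.fourierInv_fourier_eq (continuous_gk L k) (integrable_gk L k)
    (integrable_fourier_gk k hL)) u
  rw [Real.fourierInv_eq'] at h
  rw [← h]
  apply integral_congr_ae
  refine Filter.Eventually.of_forall (fun w => ?_)
  simp only [smul_eq_mul]
  congr 4
  simp [mul_comm]

end Pool.Agent.MP89da58.S
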