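import Pool.Agent.Lib.MP_89da58_nt.S.Nonvan

set_option autoImplicit false

/-!
Derivatives of the logarithmic derivative of `L(s, χ)`.
-/

namespace Pool.Agent.MP89da58.S

open Finset Filter

/-- the coefficients `χ(n) Λ(n) / log n` -/
noncomputable def aL {r : ℕ} (χ : DirichletCharacter ℂ r) (n : ℕ) : ℂ :=
  χ n * ((ArithmeticFunction.vonMangoldt n / Real.log n : ℝ) : ℂ)

lemma norm_aL_le {r : ℕ} (χ : DirichletCharacter ℂ r) (n : ℕ) : ‖aL χ n‖ ≤ 1 := by
  unfold aL
  rw [norm_mul, Complex.norm_real]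
  have h1 : ‖ArithmeticFunction.vonMangoldt n / Real.log n‖ ≤ 1 := by
    rw [norm_div, Real.norm_of_nonneg ArithmeticFunction.vonMangoldt_nonneg]
    rcases Nat.lt_or_ge 1 n with h | h
    · have hlog : 0 < Real.log n := Real.log_pos (by exact_mod_cast h)
      rw [Real.norm_of_nonneg hlog.le, div_le_one hlog]
      exact ArithmeticFunction.vonMangoldt_le_log
    · interval_cases n <;> simp
  calc _ ≤ 1 * 1 := mul_le_mul (χ.norm_le_one _) h1 (norm_nonneg _) (by norm_num)
    _ = 1 := one_mul 1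

/-- `Fk χ k s = ∑ χ(n) Λ(n) (log n)^k n^(-s)` -/
noncomputable def Fk {r : ℕ} (χ : DirichletCharacter ℂ r) (k : ℕ) (s : ℂ) : ℂ := Lj (aL χ) (k + 1) s

lemma aL_mul {r : ℕ} (χ : DirichletCharacter ℂ r) (k n : ℕ) :
    ((Real.log n : ℝ) : ℂ) ^ (k + 1) * aL χ n =
      ((Real.log n : ℝ) : ℂ) ^ k * (χ n * (ArithmeticFunction.vonMangoldt n : ℂ)) := by
  unfold aL
  rcases Nat.lt_or_ge 1 n with h | h
  · have hlog : ((Real.log n : ℝ) : ℂ) ≠ 0 := by
      exact_mod_cast (Real.log_pos (by exact_mod_cast h)).ne'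
    rw [Complex.ofReal_div]
    generalize ((Real.log n : ℝ) : ℂ) = y at hlog ⊢
    field_simp
    ring
  · interval_cases n <;> simp

lemma leibniz {r : ℕ} (χ : DirichletCharacter ℂ r) (k : ℕ) {s : ℂ} (hs : 1 < s.re) :
    ∑ j ∈ range (k + 1), (k.choose j : ℂ) * (Fk χ j s * Lj (fun n => χ n) (k - j) s) =
      Lj (fun n => χ n) (k + 1) s := by
  have hf : ∀ j, LSeriesHasSum (fun n => ((Real.log n : ℝ) : ℂ) ^ (j + 1) * aL χ n) s (Fk χ j s) :=
    fun j => (summable_Lj (norm_aL_le χ) (j + 1) hs).LSeriesHasSum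
  have hg : ∀ i, LSeriesHasSum (fun n => ((Real.log n : ℝ) : ℂ) ^ i * χ n) s
      (Lj (fun n => χ n) i s) :=
    fun i => (summable_Lj (fun n => χ.norm_le_one _) i hs).LSeriesHasSum
  have hfg : ∀ j, HasSum (fun n => (k.choose j : ℂ) *
      LSeries.term (LSeries.convolution (fun n => ((Real.log n : ℝ) : ℂ) ^ (j + 1) * aL χ n)
        (fun n => ((Real.log n : ℝ) : ℂ) ^ (k - j) * χ n)) s n)
      ((k.choose j : ℂ) * (Fk χ j s * Lj (fun n => χ n) (k - j) s)) := fun j =>
    ((hf j).convolution (hg (k - j))).mul_left _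
  have hsum := hasSum_sum (fun j (_ : j ∈ range (k + 1)) => hfg j)
  refine hsum.unique ?_
  have hgoal := hg (k + 1)
  unfold LSeriesHasSum at hgoal
  convert hgoal using 1
  funext n
  rcases eq_or_ne n 0 with rfl | hn
  · simp
  simp only [LSeries.term_of_ne_zero hn]
  rw [← Finset.sum_congr rfl (fun j _ => mul_div_assoc _ _ _), ← Finset.sum_div]
  congr 1
  simp only [LSeries.convolution_def, Finset.mul_sum]
  rw [Finset.sum_comm]
  have hn1 : (n : ℂ) ≠ 0 := by exact_mod_cast hn
  have key : ∀ p ∈ n.divisorsAntidiagonal, ∑ j ∈ range (k + 1), (k.choose j : ℂ) *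
      ((((Real.log p.1 : ℝ) : ℂ) ^ (j + 1) * aL χ p.1) *
        (((Real.log p.2 : ℝ) : ℂ) ^ (k - j) * χ p.2)) =
      ((Real.log n : ℝ) : ℂ) ^ k * χ n * (ArithmeticFunction.vonMangoldt p.1 : ℂ) := by
    intro p hp
    obtain ⟨hp1, _⟩ := Nat.mem_divisorsAntidiagonal.1 hp
    have hp1' : p.1 ≠ 0 := by rintro h; rw [h, zero_mul] at hp1; exact hn hp1.symm
    have hp2' : p.2 ≠ 0 := by rintro h; rw [h, mul_zero] at hp1; exact hn hp1.symm
    have hlog : ((Real.log n : ℝ) : ℂ) = ((Real.log p.1 : ℝ) : ℂ) + ((Real.log p.2 : ℝ) : ℂ) := by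
      rw [← hp1]
      push_cast [Real.log_mul (show ((p.1 : ℕ) : ℝ) ≠ 0 by exact_mod_cast hp1')
        (show ((p.2 : ℕ) : ℝ) ≠ 0 by exact_mod_cast hp2')]
      ring
    have hχ : χ n = χ p.1 * χ p.2 := by
      rw [← hp1]; push_cast; rw [map_mul]
    rw [hlog, add_pow, hχ, Finset.sum_mul, Finset.sum_mul]
    apply Finset.sum_congr rfl
    intro j _
    rw [aL_mul]
    ring
  rw [Finset.sum_congr rfl key, ← Finset.mul_sum,
    Nat.sum_divisorsAntidiagonal (fun i _ => (ArithmeticFunction.vonMangoldt i : ℂ))]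
  have : ∑ i ∈ n.divisors, (ArithmeticFunction.vonMangoldt i : ℂ) = ((Real.log n : ℝ) : ℂ) := by
    rw [← ArithmeticFunction.vonMangoldt_sum]
    push_cast
    rfl
  rw [this]
  ring

/-- Upper bound for all derivatives of `L'/L` at a good scale. -/
theorem Fk_bound (B D k : ℕ) : ∃ E : ℕ, ∀ᶠ m : ℕ in atTop, Good B m →
    ∀ (r : ℕ) (χ : DirichletCharacter ℂ r), 2 ≤ r → (r : ℝ) ≤ Real.exp (B * m) → χ.IsPrimitive →
    ∀ t : ℝ, |t| ≤ Real.exp (D * m) → ∀ j < k,
      ‖Fk χ j (((1 + Real.exp (-m) : ℝ) : ℂ) + Complex.I * t)‖ ≤ (m : ℝ) ^ E := by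
  induction k with
  | zero =>
    refine ⟨0, Eventually.of_forall ?_⟩
    intro m _ r χ _ _ _ t _ j hj
    omega
  | succ k ih =>
    obtain ⟨E, hE⟩ := ih
    choose C hC1 hC using norm_LjChar_le
    set A : ℝ := B + D + 3 with hA
    have hA1 : 1 ≤ A := by
      have : (0 : ℝ) ≤ B := Nat.cast_nonneg B
      have : (0 : ℝ) ≤ D := Nat.cast_nonneg D
      rw [hA]; linarith
    -- constants for the derivatives of L
    set K : ℝ := ∑ i ∈ range (k + 2), C i * A ^ (i + 1) with hK
    have hKi : ∀ i, i ≤ k + 1 → C i * A ^ (i + 1) ≤ K := by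
      intro i hi
      rw [hK]
      apply Finset.single_le_sum (f := fun i => C i * A ^ (i + 1)) _ (Finset.mem_range.2 (by omega))
      intro i _
      have := hC1 i
      positivity
    refine ⟨41 + (E + (k + 4)), ?_⟩
    filter_upwards [hE, lower_all B D, eventually_ge_atTop 1, ev_const_le (max K (2 ^ (k + 1)))]
      with m hEm hlow hm hmK
    intro hgood r χ hr hrB hprim t ht j hj
    have hmr1 : (1 : ℝ) ≤ m := by exact_mod_cast hm
    have hmr0 : (0 : ℝ) < m := by linarith
    have hχ := ne_one_of_primitive hr hprim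
    have hmK1 : K ≤ m := le_trans (le_max_left _ _) hmK
    have hmK2 : (2 : ℝ) ^ (k + 1) ≤ m := le_trans (le_max_right _ _) hmK
    set s : ℂ := ((1 + Real.exp (-m) : ℝ) : ℂ) + Complex.I * t with hs
    have hsre : s.re = 1 + Real.exp (-m) := by rw [hs, Complex.add_re, Complex.ofReal_re]; simp
    have hsim : s.im = t := by rw [hs, Complex.add_im, Complex.ofReal_im]; simp
    have hexp0 : 0 < Real.exp (-(m : ℝ)) := Real.exp_pos _
    have hexp1 : Real.exp (-(m : ℝ)) ≤ 1 := Real.exp_le_one_iff.2 (by linarith)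
    have hs1 : 1 < s.re := by rw [hsre]; linarith
    have hEE : 1 ≤ Real.exp (D * m) := Real.one_le_exp (by positivity)
    rcases Nat.lt_or_ge j k with hjk | hjk
    · refine (hEm hgood r χ hr hrB hprim t ht j hjk).trans ?_
      exact pow_le_pow_right₀ hmr1 (by omega)
    have hjk' : j = k := by omega
    subst hjk'
    -- bounds for L and its derivatives
    have hLi : ∀ i, i ≤ j + 1 → ‖Lj (fun n => χ n) i s‖ ≤ (m : ℝ) ^ (i + 2) := by
      intro i hi
      have hlb := log_bound (B := B) (D := D) hm (by omega : 1 ≤ r) hrB (s := s)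
        (by rw [hsre, abs_of_nonneg (by linarith)]; linarith)
        (by rw [hsim]; linarith)
      refine (hC i r (by omega) χ hχ s hs1).trans ?_
      have h0 : 0 ≤ C i := by linarith [hC1 i]
      calc C i * (1 + Real.log (r * (1 + ‖s‖))) ^ (i + 1) ≤ C i * (A * m) ^ (i + 1) := by
            apply mul_le_mul_of_nonneg_left _ h0
            exact pow_le_pow_left₀ (by linarith [hlb.1]) hlb.2 _
        _ = (C i * A ^ (i + 1)) * (m : ℝ) ^ (i + 1) := by rw [mul_pow]; ring
        _ ≤ m * (m : ℝ) ^ (i + 1) := by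
            apply mul_le_mul_of_nonneg_right ((hKi i hi).trans hmK1) (by positivity)
        _ = _ := by ring
    have hL0 : 1 / (m : ℝ) ^ 41 ≤ ‖Lj (fun n => χ n) 0 s‖ := by
      rw [Lj_zero_eq]
      exact hlow hgood r χ hr hrB hprim t ht
    have hrec := leibniz χ j hs1
    rw [Finset.sum_range_succ, Nat.choose_self, Nat.sub_self] at hrec
    have e1 : Fk χ j s * Lj (fun n => χ n) 0 s = Lj (fun n => χ n) (j + 1) s -
        ∑ i ∈ range j, (j.choose i : ℂ) * (Fk χ i s * Lj (fun n => χ n) (j - i) s) := by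
      rw [← hrec]; push_cast; ring
    have h1 : ‖Fk χ j s * Lj (fun n => χ n) 0 s‖ ≤ (m : ℝ) ^ (E + (j + 4)) := by
      rw [e1]
      calc _ ≤ ‖Lj (fun n => χ n) (j + 1) s‖ +
            ‖∑ i ∈ range j, (j.choose i : ℂ) * (Fk χ i s * Lj (fun n => χ n) (j - i) s)‖ :=
            norm_sub_le _ _
        _ ≤ (m : ℝ) ^ (j + 1 + 2) + ∑ i ∈ range j, (j.choose i : ℝ) * ((m : ℝ) ^ (E + (j + 2))) := by
            gcongr
            · exact hLi (j + 1) le_rfl
            · refine (norm_sum_le _ _).trans (Finset.sum_le_sum ?_)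
              intro i hi
              have hij := Finset.mem_range.1 hi
              rw [norm_mul, norm_mul, Complex.norm_natCast]
              apply mul_le_mul_of_nonneg_left _ (Nat.cast_nonneg _)
              calc ‖Fk χ i s‖ * ‖Lj (fun n => χ n) (j - i) s‖ ≤
                    (m : ℝ) ^ E * (m : ℝ) ^ (j - i + 2) := by
                    apply mul_le_mul (hEm hgood r χ hr hrB hprim t ht i hij)
                      (hLi (j - i) (by omega)) (norm_nonneg _) (by positivity)
                _ ≤ (m : ℝ) ^ E * (m : ℝ) ^ (j + 2) := by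
                    apply mul_le_mul_of_nonneg_left _ (by positivity)
                    exact pow_le_pow_right₀ hmr1 (by omega)
                _ = _ := by rw [← pow_add]
        _ ≤ (m : ℝ) ^ (E + (j + 3)) + 2 ^ j * (m : ℝ) ^ (E + (j + 2)) := by
            gcongr ?_ + ?_
            · exact pow_le_pow_right₀ hmr1 (by omega)
            · rw [← Finset.sum_mul]
              apply mul_le_mul_of_nonneg_right _ (by positivity)
              have h2 : ∑ i ∈ range (j + 1), (j.choose i : ℝ) = 2 ^ j := by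
                exact_mod_cast Nat.sum_range_choose j
              rw [← h2]
              apply Finset.sum_le_sum_of_subset_of_nonneg
              · intro i hi
                rw [Finset.mem_range] at hi ⊢
                omega
              · intro i _ _
                positivity
        _ ≤ (m : ℝ) ^ (E + (j + 4)) := by
            have h3 : (2 : ℝ) ^ j * (m : ℝ) ^ (E + (j + 2)) ≤ (m : ℝ) ^ (E + (j + 3)) := by
              calc (2 : ℝ) ^ j * (m : ℝ) ^ (E + (j + 2)) ≤ m * (m : ℝ) ^ (E + (j + 2)) := by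
                    apply mul_le_mul_of_nonneg_right _ (by positivity)
                    refine le_trans ?_ hmK2
                    exact pow_le_pow_right₀ (by norm_num) (by omega)
                _ = _ := by ring
            have h4 : (2 : ℝ) * (m : ℝ) ^ (E + (j + 3)) ≤ (m : ℝ) ^ (E + (j + 4)) := by
              have h5 : (2 : ℝ) ≤ m := by
                refine le_trans ?_ hmK2
                calc (2 : ℝ) = 2 ^ 1 := (pow_one 2).symm
                  _ ≤ 2 ^ (j + 1) := pow_le_pow_right₀ (by norm_num) (by omega)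
              calc (2 : ℝ) * (m : ℝ) ^ (E + (j + 3)) ≤ m * (m : ℝ) ^ (E + (j + 3)) := by gcongr
                _ = _ := by ring
            linarith
    rw [norm_mul] at h1
    have hL0pos : 0 < ‖Lj (fun n => χ n) 0 s‖ := lt_of_lt_of_le (by positivity) hL0
    calc ‖Fk χ j s‖ = ‖Fk χ j s‖ * ‖Lj (fun n => χ n) 0 s‖ / ‖Lj (fun n => χ n) 0 s‖ := by
          field_simp
      _ ≤ (m : ℝ) ^ (E + (j + 4)) / (1 / (m : ℝ) ^ 41) := by gcongr
      _ = (m : ℝ) ^ (41 + (E + (j + 4))) := by
          rw [div_div_eq_mul_div, div_one, pow_add (m : ℝ) 41]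
          ring

/-- Trivial bound for the series. -/
theorem Lj_trivial (j : ℕ) : ∃ C : ℝ, 1 ≤ C ∧ ∀ (a : ℕ → ℂ), (∀ n, ‖a n‖ ≤ 1) → ∀ s : ℂ, 1 < s.re →
    s.re ≤ 2 → ‖Lj a j s‖ ≤ C / (s.re - 1) ^ (j + 1) := by
  refine ⟨24 * (2 * (j + 1)) ^ j, ?_, ?_⟩
  · have : (1 : ℝ) ≤ (2 * (j + 1)) ^ j := by
      apply one_le_pow₀
      have : (0 : ℝ) ≤ j := Nat.cast_nonneg j
      linarith
    linarith
  intro a ha s hs hs2
  have hs0 : s ≠ 0 := by
    rintro rfl
    simp at hs
    linarith
  set η : ℝ := s.re - 1 with hη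
  have hη0 : 0 < η := by rw [hη]; linarith
  have hη1 : η ≤ 1 := by rw [hη]; linarith
  set x : ℝ := 1 + η / 2 with hx
  have hx1 : 1 < x := by rw [hx]; linarith
  have hone : LSeriesSummable 1 (x : ℂ) := LSeriesSummable_one_iff.2 (by simpa using hx1)
  set ε : ℝ := η / (2 * (j + 1)) with hε
  have hj0 : (0 : ℝ) ≤ j := Nat.cast_nonneg j
  have hε0 : 0 < ε := by positivity
  have hterm : ∀ n, ‖LSeries.term (fun n => ((Real.log n : ℝ) : ℂ) ^ j * a n) s n‖ ≤
      (2 * (j + 1) / η) ^ j * ‖LSeries.term 1 (x : ℂ) n‖ := by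
    intro n
    rw [term_Lj a j hs0]
    rcases eq_or_ne n 0 with rfl | hn
    · simp [ff, hs0]
    have hn1 : (1 : ℝ) ≤ n := by exact_mod_cast Nat.one_le_iff_ne_zero.2 hn
    have hn0 : (0 : ℝ) < n := by linarith
    rw [norm_mul, norm_ff hn1, LSeries.term_of_ne_zero hn, norm_div]
    have e1 : ‖(n : ℂ) ^ (x : ℂ)‖ = (n : ℝ) ^ x := by
      rw [Complex.norm_natCast_cpow_of_pos (by omega)]
      simp
    rw [e1]
    simp only [Pi.one_apply, norm_one]
    have e2 : Real.log n ≤ (n : ℝ) ^ ε / ε := Real.log_le_rpow_div hn0.le hε0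
    have e3 : (Real.log n) ^ j ≤ (2 * (j + 1) / η) ^ j * (n : ℝ) ^ (η / 2) := by
      calc (Real.log n) ^ j ≤ ((n : ℝ) ^ ε / ε) ^ j :=
            pow_le_pow_left₀ (Real.log_nonneg hn1) e2 j
        _ = (1 / ε) ^ j * ((n : ℝ) ^ ε) ^ j := by rw [← mul_pow]; congr 1; ring
        _ = (2 * (j + 1) / η) ^ j * ((n : ℝ) ^ ε) ^ j := by
            congr 2
            rw [hε]; field_simp
        _ ≤ _ := by
            apply mul_le_mul_of_nonneg_left _ (by positivity)
            rw [← Real.rpow_natCast, ← Real.rpow_mul hn0.le]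
            apply Real.rpow_le_rpow_of_exponent_le hn1
            rw [hε, div_mul_eq_mul_div, div_le_div_iff₀ (by positivity) (by norm_num)]
            nlinarith
    calc ‖a n‖ * ((Real.log n) ^ j * (n : ℝ) ^ (-s.re)) ≤
          1 * (((2 * (j + 1) / η) ^ j * (n : ℝ) ^ (η / 2)) * (n : ℝ) ^ (-s.re)) := by
          have := Real.log_nonneg hn1
          apply mul_le_mul (ha n) _ (by positivity) (by norm_num)
          apply mul_le_mul_of_nonneg_right e3 (by positivity)
      _ = (2 * (j + 1) / η) ^ j * (1 / (n : ℝ) ^ x) := by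
          rw [one_mul, mul_assoc, ← Real.rpow_add hn0, one_div, ← Real.rpow_neg hn0.le]
          congr 2
          rw [hx, hη]; ring
  have hsumn : Summable (fun n => ‖LSeries.term 1 (x : ℂ) n‖) := hone.norm
  have hnorm1 : ∑' n, ‖LSeries.term 1 (x : ℂ) n‖ ≤ 22 / η := by
    have e1 : ∀ n, ‖LSeries.term 1 (x : ℂ) n‖ = (LSeries.term 1 (x : ℂ) n).re := by
      intro n
      rcases eq_or_ne n 0 with rfl | hn
      · simp
      rw [LSeries.term_of_ne_zero hn]
      have : ((n : ℂ) ^ (x : ℂ)) = (((n : ℝ) ^ x : ℝ) : ℂ) := by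
        rw [Complex.ofReal_cpow (Nat.cast_nonneg n)]; simp
      rw [this]
      simp only [Pi.one_apply]
      rw [← Complex.ofReal_one, ← Complex.ofReal_div, Complex.norm_real, Complex.ofReal_re,
        Real.norm_of_nonneg (by positivity)]
    have e2 : ∑' n, ‖LSeries.term 1 (x : ℂ) n‖ = (LSeries 1 (x : ℂ)).re := by
      rw [tsum_congr e1]
      exact (Complex.hasSum_re hone.hasSum).tsum_eq
    rw [e2]
    refine (Complex.re_le_norm _).trans ((norm_zeta_le (by simpa using hx1)).trans ?_)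
    have e3 : ‖(x : ℂ)‖ = x := by rw [Complex.norm_real, Real.norm_of_nonneg (by linarith)]
    have e4 : ‖(x : ℂ) - 1‖ = η / 2 := by
      have : (x : ℂ) - 1 = ((η / 2 : ℝ) : ℂ) := by rw [hx]; push_cast; ring
      rw [this, Complex.norm_real, Real.norm_of_nonneg (by positivity)]
    rw [e3, e4]
    have e5 : Real.log (1 + x) ≤ 2 :=
      le_trans (Real.log_le_log (by linarith) (by rw [hx]; linarith : 1 + x ≤ 3)) log_three_le
    have e6 : 2 / (η / 2) = 4 / η := by field_simp; norm_num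
    have e7 : (12 : ℝ) ≤ 12 / η := by
      rw [le_div_iff₀ hη0]; linarith
    have e8 : (22 : ℝ) / η = 12 / η + 4 / η + 6 / η := by ring
    have e9 : 0 ≤ 6 / η := by positivity
    rw [e6, e8]
    linarith
  unfold Lj LSeries
  calc _ ≤ ∑' n, (2 * (j + 1) / η) ^ j * ‖LSeries.term 1 (x : ℂ) n‖ :=
        tsum_of_norm_bounded (hsumn.mul_left _).hasSum hterm
    _ = (2 * (j + 1) / η) ^ j * ∑' n, ‖LSeries.term 1 (x : ℂ) n‖ := tsum_mul_left
    _ ≤ (2 * (j + 1) / η) ^ j * (24 / η) := by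
        apply mul_le_mul_of_nonneg_left _ (by positivity)
        refine hnorm1.trans ?_
        gcongr
        norm_num
    _ = _ := by
        rw [div_pow, pow_succ]
        field_simp

end Pool.Agent.MP89da58.S
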