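import Mathlib

set_option autoImplicit false

/-!
Upper bounds for Dirichlet series with bounded partial sums, to the right of `Re s = 1`.
-/

namespace Pool.Agent.MP89da58.S

open Finset

/-- the function `x ↦ (log x)^j * x^(-s)` -/
noncomputable def ff (j : ℕ) (s : ℂ) (x : ℝ) : ℂ := ((Real.log x : ℝ) : ℂ) ^ j * (x : ℂ) ^ (-s)

lemma norm_ff {j : ℕ} {s : ℂ} {x : ℝ} (hx : 1 ≤ x) :
    ‖ff j s x‖ = (Real.log x) ^ j * x ^ (-s.re) := by
  unfold ff
  rw [norm_mul, norm_pow, Complex.norm_real, Complex.norm_cpow_eq_rpow_re_of_pos (by linarith),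
    Real.norm_of_nonneg (Real.log_nonneg hx)]
  simp

/-- its derivative -/
noncomputable def ff' (j : ℕ) (s : ℂ) (x : ℝ) : ℂ :=
  (j : ℂ) * ((Real.log x : ℝ) : ℂ) ^ (j - 1) * ((x⁻¹ : ℝ) : ℂ) * (x : ℂ) ^ (-s) +
    ((Real.log x : ℝ) : ℂ) ^ j * (-s * (x : ℂ) ^ (-s - 1))

lemma hasDerivAt_ff {j : ℕ} {s : ℂ} {x : ℝ} (hx : 0 < x) :
    HasDerivAt (ff j s) (ff' j s x) x := by
  have h1 : HasDerivAt (fun y : ℝ => ((Real.log y : ℝ) : ℂ)) ((x⁻¹ : ℝ) : ℂ) x :=
    (Real.hasDerivAt_log hx.ne').ofReal_comp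
  have h2 : HasDerivAt (fun y : ℝ => ((Real.log y : ℝ) : ℂ) ^ j)
      ((j : ℂ) * ((Real.log x : ℝ) : ℂ) ^ (j - 1) * ((x⁻¹ : ℝ) : ℂ)) x := h1.pow j
  have h3 : HasDerivAt (fun y : ℝ => (y : ℂ) ^ (-s)) (-s * (x : ℂ) ^ (-s - 1)) x := by
    have h4 : HasDerivAt (fun y : ℂ => y ^ (-s)) (-s * (x : ℂ) ^ (-s - 1)) (x : ℂ) := by
      have := (hasDerivAt_id (x : ℂ)).cpow_const (c := -s) (by
        simp only [id]
        exact Complex.ofReal_mem_slitPlane.2 hx)
      simpa using this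
    exact h4.comp_ofReal
  exact h2.mul h3

lemma norm_ff'_le {j : ℕ} {s : ℂ} {x : ℝ} (hx : 1 ≤ x) (hs : 1 ≤ s.re) :
    ‖ff' j s x‖ ≤ (j + ‖s‖) * (1 + Real.log x) ^ j / x ^ 2 := by
  have hx0 : 0 < x := by linarith
  have hlog : 0 ≤ Real.log x := Real.log_nonneg hx
  have h1 : ‖(x : ℂ) ^ (-s)‖ ≤ x⁻¹ := by
    rw [Complex.norm_cpow_eq_rpow_re_of_pos hx0, ← Real.rpow_neg_one]
    apply Real.rpow_le_rpow_of_exponent_le hx
    simp; linarith
  have h2 : ‖(x : ℂ) ^ (-s - 1)‖ ≤ (x ^ 2)⁻¹ := by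
    rw [Complex.norm_cpow_eq_rpow_re_of_pos hx0, ← Real.rpow_natCast, ← Real.rpow_neg hx0.le]
    apply Real.rpow_le_rpow_of_exponent_le hx
    simp; linarith
  have h3 : (Real.log x) ^ (j - 1) ≤ (1 + Real.log x) ^ j := by
    calc (Real.log x) ^ (j - 1) ≤ (1 + Real.log x) ^ (j - 1) :=
          pow_le_pow_left₀ hlog (by linarith) _
      _ ≤ (1 + Real.log x) ^ j := pow_le_pow_right₀ (by linarith) (Nat.sub_le _ _)
  have h4 : (Real.log x) ^ j ≤ (1 + Real.log x) ^ j := pow_le_pow_left₀ hlog (by linarith) _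
  unfold ff'
  calc _ ≤ ‖(j : ℂ) * ((Real.log x : ℝ) : ℂ) ^ (j - 1) * ((x⁻¹ : ℝ) : ℂ) * (x : ℂ) ^ (-s)‖ +
        ‖((Real.log x : ℝ) : ℂ) ^ j * (-s * (x : ℂ) ^ (-s - 1))‖ := norm_add_le _ _
    _ = j * (Real.log x) ^ (j - 1) * x⁻¹ * ‖(x : ℂ) ^ (-s)‖ +
        (Real.log x) ^ j * (‖s‖ * ‖(x : ℂ) ^ (-s - 1)‖) := by
        simp only [norm_mul, norm_pow, Complex.norm_real, Real.norm_of_nonneg hlog, norm_neg,
          Real.norm_of_nonneg (inv_nonneg.2 hx0.le), Complex.norm_natCast]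
    _ ≤ j * (1 + Real.log x) ^ j * x⁻¹ * x⁻¹ + (1 + Real.log x) ^ j * (‖s‖ * (x ^ 2)⁻¹) := by
        gcongr
    _ = _ := by
        field_simp

lemma norm_ff_sub_le {j : ℕ} {s : ℂ} (hs : 1 ≤ s.re) {n : ℕ} (hn : 1 ≤ n) :
    ‖ff j s ((n + 1 : ℕ) : ℝ) - ff j s (n : ℝ)‖ ≤
      (j + ‖s‖) * (1 + Real.log (n + 1)) ^ j / (n : ℝ) ^ 2 := by
  have hn1 : (1 : ℝ) ≤ n := by exact_mod_cast hn
  have := norm_image_sub_le_of_norm_deriv_le_segment' (f := ff j s) (f' := ff' j s)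
    (a := (n : ℝ)) (b := ((n + 1 : ℕ) : ℝ))
    (C := (j + ‖s‖) * (1 + Real.log (n + 1)) ^ j / (n : ℝ) ^ 2)
    (fun x hx => (hasDerivAt_ff (by linarith [hx.1])).hasDerivWithinAt)
    (fun x hx => by
      have hx1 : 1 ≤ x := by linarith [hx.1]
      refine (norm_ff'_le hx1 hs).trans ?_
      have h1 : Real.log x ≤ Real.log (n + 1) := by
        apply Real.log_le_log (by linarith)
        have := hx.2
        push_cast at this
        linarith
      have h2 : 0 ≤ Real.log x := Real.log_nonneg hx1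
      have h3 := hx.1
      have h5 : 0 ≤ (j + ‖s‖) * (1 + Real.log ((n : ℝ) + 1)) ^ j :=
        mul_nonneg (by positivity) (pow_nonneg (by linarith) _)
      gcongr)
    ((n + 1 : ℕ) : ℝ) (Set.right_mem_Icc.2 (by push_cast; linarith))
  have h4 : (((n + 1 : ℕ) : ℝ) - (n : ℝ)) = 1 := by push_cast; ring
  rwa [h4, mul_one] at this

/-- logs against a square root -/
lemma log_pow_le (j : ℕ) {n : ℕ} (hn : 1 ≤ n) :
    (1 + Real.log (n + 1)) ^ j ≤ (2 * j + 4) ^ j * Real.sqrt n := by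
  have hn1 : (1 : ℝ) ≤ n := by exact_mod_cast hn
  have hn0 : (0 : ℝ) < n := by linarith
  have e1 : Real.log ((n : ℝ) + 1) ≤ Real.log 2 + Real.log n := by
    rw [← Real.log_mul (by norm_num) hn0.ne']
    apply Real.log_le_log (by linarith)
    linarith
  have e2 : Real.log 2 ≤ 1 := by
    have := Real.log_two_lt_d9
    linarith
  set δ : ℝ := 1 / (2 * (j + 1)) with hδ
  have hδ0 : 0 < δ := by positivity
  have e3 : Real.log n ≤ (n : ℝ) ^ δ / δ := Real.log_le_rpow_div hn0.le hδ0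
  have e4 : (1 : ℝ) ≤ (n : ℝ) ^ δ := Real.one_le_rpow hn1 hδ0.le
  have e5 : 1 + Real.log ((n : ℝ) + 1) ≤ (2 * j + 4) * (n : ℝ) ^ δ := by
    have : (n : ℝ) ^ δ / δ = (2 * (j + 1)) * (n : ℝ) ^ δ := by
      rw [hδ]; field_simp
    rw [this] at e3
    nlinarith
  have e6 : 0 ≤ 1 + Real.log ((n : ℝ) + 1) := by
    have := Real.log_nonneg (show (1 : ℝ) ≤ (n : ℝ) + 1 by linarith)
    linarith
  calc (1 + Real.log ((n : ℝ) + 1)) ^ j ≤ ((2 * j + 4) * (n : ℝ) ^ δ) ^ j :=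
        pow_le_pow_left₀ e6 e5 j
    _ = (2 * j + 4) ^ j * ((n : ℝ) ^ δ) ^ j := mul_pow _ _ _
    _ ≤ (2 * j + 4) ^ j * Real.sqrt n := by
        apply mul_le_mul_of_nonneg_left _ (by positivity)
        rw [← Real.rpow_natCast, ← Real.rpow_mul hn0.le, Real.sqrt_eq_rpow]
        apply Real.rpow_le_rpow_of_exponent_le hn1
        rw [hδ]
        rw [div_mul_eq_mul_div, one_mul, div_le_div_iff₀ (by positivity) (by norm_num)]
        nlinarith

/-- telescoping majorant -/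
lemma inv_sqrt_telescope {n : ℕ} (hn : 1 ≤ n) :
    Real.sqrt n / (n : ℝ) ^ 2 ≤ 6 * (1 / Real.sqrt n - 1 / Real.sqrt (n + 1)) := by
  have hn1 : (1 : ℝ) ≤ n := by exact_mod_cast hn
  set a := Real.sqrt n with ha
  set b := Real.sqrt (n + 1) with hb
  have ha0 : 0 < a := Real.sqrt_pos.2 (by linarith)
  have hb0 : 0 < b := Real.sqrt_pos.2 (by linarith)
  have ha2 : a ^ 2 = n := Real.sq_sqrt (by linarith)
  have hb2 : b ^ 2 = n + 1 := Real.sq_sqrt (by linarith)
  have hab : a ≤ b := Real.sqrt_le_sqrt (by linarith)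
  have h2 : b ≤ 3 / 2 * a := by
    apply abs_le_of_sq_le_sq' _ (by positivity) |>.2
    nlinarith
  have h3 : 1 / a - 1 / b = 1 / (a * b * (a + b)) := by
    have : (b - a) * (a + b) = 1 := by nlinarith
    field_simp
    nlinarith
  rw [h3, ← ha2]
  have h4 : a * b * (a + b) ≤ 6 * a ^ 3 := by
    have : b * (a + b) ≤ 6 * a ^ 2 := by nlinarith
    nlinarith
  calc a / (a ^ 2) ^ 2 = 6 * (1 / (6 * a ^ 3)) := by field_simp
    _ ≤ 6 * (1 / (a * b * (a + b))) := by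
      apply mul_le_mul_of_nonneg_left _ (by norm_num)
      apply one_div_le_one_div_of_le (by positivity) h4

/-- Abel summation identity -/
lemma abel_identity (a f : ℕ → ℂ) (N M : ℕ) (h : N ≤ M) :
    ∑ n ∈ Ico N M, a n * f n = (∑ i ∈ range M, a i) * f M - (∑ i ∈ range N, a i) * f N -
      ∑ n ∈ Ico N M, (∑ i ∈ range (n + 1), a i) * (f (n + 1) - f n) := by
  induction M, h using Nat.le_induction with
  | base => simp
  | succ m hm ih =>
    rw [Finset.sum_Ico_succ_top hm, Finset.sum_Ico_succ_top hm, ih, Finset.sum_range_succ]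
    ring

/-- finite tail bound -/
lemma tail_bound {a : ℕ → ℂ} {K : ℝ} (hK : ∀ n, ‖∑ i ∈ range n, a i‖ ≤ K) (hK0 : 0 ≤ K)
    (j : ℕ) {s : ℂ} (hs : 1 ≤ s.re) {N M : ℕ} (hN : 1 ≤ N) (hNM : N ≤ M) :
    ‖∑ n ∈ Ico N M, a n * ff j s n‖ ≤
      K * ((2 * j + 4) ^ j * (8 + 6 * (j + ‖s‖))) / Real.sqrt N := by
  have hN1 : (1 : ℝ) ≤ N := by exact_mod_cast hN
  set D : ℝ := (2 * j + 4) ^ j with hD
  have hD0 : 0 ≤ D := by positivity
  -- bound on ff
  have hf : ∀ n : ℕ, N ≤ n → ‖ff j s n‖ ≤ D / Real.sqrt N := by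
    intro n hn
    have hn1 : (1 : ℝ) ≤ n := by exact_mod_cast hN.trans hn
    have hNn : (N : ℝ) ≤ n := by exact_mod_cast hn
    rw [norm_ff hn1]
    have h1 : (n : ℝ) ^ (-s.re) ≤ (n : ℝ)⁻¹ := by
      rw [← Real.rpow_neg_one]
      apply Real.rpow_le_rpow_of_exponent_le hn1
      linarith
    have h2 : (Real.log n) ^ j ≤ D * Real.sqrt n := by
      refine le_trans ?_ (log_pow_le j (hN.trans hn))
      apply pow_le_pow_left₀ (Real.log_nonneg hn1)
      have : Real.log n ≤ Real.log (n + 1) := Real.log_le_log (by linarith) (by linarith)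
      linarith
    have hsn : 0 < Real.sqrt n := Real.sqrt_pos.2 (by linarith)
    calc (Real.log n) ^ j * (n : ℝ) ^ (-s.re) ≤ (D * Real.sqrt n) * (n : ℝ)⁻¹ := by
          gcongr
      _ = D / Real.sqrt n := by
          have : (n : ℝ) = Real.sqrt n * Real.sqrt n := (Real.mul_self_sqrt (by linarith)).symm
          rw [this]
          simp only [Real.sqrt_mul_self hsn.le]
          field_simp
      _ ≤ D / Real.sqrt N := by
          apply div_le_div_of_nonneg_left hD0 (Real.sqrt_pos.2 (by linarith))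
          exact Real.sqrt_le_sqrt hNn
  have hΔ : ∑ n ∈ Ico N M, ‖ff j s ((n + 1 : ℕ) : ℝ) - ff j s (n : ℝ)‖ ≤
      6 * D * (j + ‖s‖) / Real.sqrt N := by
    have h1 : ∀ n ∈ Ico N M, ‖ff j s ((n + 1 : ℕ) : ℝ) - ff j s (n : ℝ)‖ ≤
        6 * D * (j + ‖s‖) * (1 / Real.sqrt n - 1 / Real.sqrt (n + 1)) := by
      intro n hn
      have hn1 : 1 ≤ n := hN.trans (Finset.mem_Ico.1 hn).1
      refine (norm_ff_sub_le hs hn1).trans ?_
      have h2 := log_pow_le j hn1
      have h3 := inv_sqrt_telescope hn1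
      calc (j + ‖s‖) * (1 + Real.log (n + 1)) ^ j / (n : ℝ) ^ 2
          ≤ (j + ‖s‖) * (D * Real.sqrt n) / (n : ℝ) ^ 2 := by gcongr
        _ = (j + ‖s‖) * D * (Real.sqrt n / (n : ℝ) ^ 2) := by ring
        _ ≤ (j + ‖s‖) * D * (6 * (1 / Real.sqrt n - 1 / Real.sqrt (n + 1))) := by gcongr
        _ = _ := by ring
    have h2 : ∀ M : ℕ, N ≤ M → ∑ n ∈ Ico N M, (1 / Real.sqrt n - 1 / Real.sqrt (n + 1)) =
        1 / Real.sqrt N - 1 / Real.sqrt M := by
      intro M hM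
      induction M, hM using Nat.le_induction with
      | base => simp
      | succ m hm ih =>
        rw [Finset.sum_Ico_succ_top hm, ih]
        push_cast
        ring
    calc _ ≤ ∑ n ∈ Ico N M, 6 * D * (j + ‖s‖) * (1 / Real.sqrt n - 1 / Real.sqrt (n + 1)) :=
          Finset.sum_le_sum h1
      _ = 6 * D * (j + ‖s‖) * (1 / Real.sqrt N - 1 / Real.sqrt M) := by
          rw [← Finset.mul_sum, h2 M hNM]
      _ ≤ 6 * D * (j + ‖s‖) * (1 / Real.sqrt N) := by
          apply mul_le_mul_of_nonneg_left _ (by positivity)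
          have : 0 ≤ 1 / Real.sqrt M := by positivity
          linarith
      _ = _ := by ring
  rw [abel_identity a (fun n => ff j s n) N M hNM]
  have hsN : 0 < Real.sqrt N := Real.sqrt_pos.2 (by linarith)
  calc _ ≤ ‖(∑ i ∈ range M, a i) * ff j s M‖ + ‖(∑ i ∈ range N, a i) * ff j s N‖ +
        ‖∑ n ∈ Ico N M, (∑ i ∈ range (n + 1), a i) * (ff j s ((n + 1 : ℕ) : ℝ) - ff j s n)‖ := by
        refine (norm_sub_le _ _).trans ?_
        gcongr
        exact norm_sub_le _ _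
    _ ≤ K * (D / Real.sqrt N) + K * (D / Real.sqrt N) + K * (6 * D * (j + ‖s‖) / Real.sqrt N) := by
        gcongr
        · rw [norm_mul]
          exact mul_le_mul (hK M) (hf M hNM) (norm_nonneg _) hK0
        · rw [norm_mul]
          exact mul_le_mul (hK N) (hf N le_rfl) (norm_nonneg _) hK0
        · refine (norm_sum_le _ _).trans ?_
          calc _ ≤ ∑ n ∈ Ico N M, K * ‖ff j s ((n + 1 : ℕ) : ℝ) - ff j s (n : ℝ)‖ := by
                apply Finset.sum_le_sum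
                intro n _
                rw [norm_mul]
                exact mul_le_mul_of_nonneg_right (hK _) (norm_nonneg _)
            _ = K * ∑ n ∈ Ico N M, ‖ff j s ((n + 1 : ℕ) : ℝ) - ff j s (n : ℝ)‖ := by
                rw [Finset.mul_sum]
            _ ≤ _ := mul_le_mul_of_nonneg_left hΔ hK0
    _ ≤ K * (D * (8 + 6 * (j + ‖s‖))) / Real.sqrt N := by
        have : K * (D / Real.sqrt N) + K * (D / Real.sqrt N) + K * (6 * D * (j + ‖s‖) / Real.sqrt N)
          = K * (D * (2 + 6 * (j + ‖s‖))) / Real.sqrt N := by ring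
        rw [this]
        gcongr
        norm_num

/-- the series `∑ a(n) (log n)^j n^(-s)` -/
noncomputable def Lj (a : ℕ → ℂ) (j : ℕ) (s : ℂ) : ℂ :=
  LSeries (fun n => ((Real.log n : ℝ) : ℂ) ^ j * a n) s

lemma term_Lj (a : ℕ → ℂ) (j : ℕ) {s : ℂ} (hs : s ≠ 0) (n : ℕ) :
    LSeries.term (fun n => ((Real.log n : ℝ) : ℂ) ^ j * a n) s n = a n * ff j s n := by
  rcases eq_or_ne n 0 with rfl | hn
  · simp [ff, hs]
  · rw [LSeries.term_of_ne_zero hn, ff, Complex.cpow_neg, div_eq_mul_inv]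
    push_cast
    ring

lemma summable_Lj {a : ℕ → ℂ} (ha : ∀ n, ‖a n‖ ≤ 1) (j : ℕ) {s : ℂ} (hs : 1 < s.re) :
    LSeriesSummable (fun n => ((Real.log n : ℝ) : ℂ) ^ j * a n) s := by
  set x : ℝ := (1 + s.re) / 2 with hx
  have hx1 : x < s.re := by rw [hx]; linarith
  have hx2 : 1 < x := by rw [hx]; linarith
  apply LSeriesSummable_of_isBigO_rpow hx1
  have h1 : (fun n : ℕ => ((Real.log n : ℝ) : ℂ) ^ j * a n) =O[Filter.atTop]
      fun n : ℕ => (Real.log n) ^ j := by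
    apply Asymptotics.IsBigO.of_bound 1
    filter_upwards [Filter.eventually_ge_atTop 1] with n hn
    rw [norm_mul, norm_pow, Complex.norm_real, one_mul, norm_pow]
    calc ‖Real.log n‖ ^ j * ‖a n‖ ≤ ‖Real.log n‖ ^ j * 1 := by
          gcongr
          exact ha n
      _ = _ := mul_one _
  refine h1.trans ?_
  have h3 : (fun y : ℝ => Real.log y ^ j) =O[Filter.atTop] fun y : ℝ => y ^ (x - 1) := by
    have := isLittleO_log_rpow_rpow_atTop (s := x - 1) (r := (j : ℝ)) (by linarith)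
    simpa using this.isBigO
  exact h3.comp_tendsto tendsto_natCast_atTop_atTop

lemma sum_inv_le (N : ℕ) : ∑ n ∈ Ico 1 N, (1 : ℝ) / n ≤ 1 + Real.log N := by
  have h := harmonic_le_one_add_log N
  rw [harmonic_eq_sum_Icc] at h
  push_cast at h
  refine le_trans ?_ h
  have : ∑ n ∈ Ico 1 N, (1 : ℝ) / n = ∑ n ∈ Ico 1 N, ((n : ℝ))⁻¹ := by simp
  rw [this]
  apply Finset.sum_le_sum_of_subset_of_nonneg
  · intro n hn
    rw [Finset.mem_Ico] at hn
    rw [Finset.mem_Icc]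
    omega
  · intro n _ _
    positivity

/-- Upper bounds for the derivatives of a Dirichlet series whose coefficients have bounded
partial sums, uniformly up to the line `Re s = 1`. -/
theorem norm_Lj_le (j : ℕ) : ∃ C : ℝ, 1 ≤ C ∧ ∀ (a : ℕ → ℂ) (K : ℝ), (∀ n, ‖a n‖ ≤ 1) → 1 ≤ K →
    (∀ n, ‖∑ i ∈ range n, a i‖ ≤ K) → ∀ s : ℂ, 1 < s.re →
      ‖Lj a j s‖ ≤ C * (1 + Real.log (K * (1 + ‖s‖))) ^ (j + 1) := by
  set D : ℝ := (2 * j + 4) ^ j with hD
  have hD0 : 0 ≤ D := by positivity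
  refine ⟨2 ^ (j + 1) + D * (8 + 6 * j), ?_, ?_⟩
  · have : (1 : ℝ) ≤ 2 ^ (j + 1) := one_le_pow₀ (by norm_num)
    have : 0 ≤ D * (8 + 6 * j) := by positivity
    linarith
  intro a K ha hK1 hK s hs
  set Z : ℝ := K * (1 + ‖s‖) with hZ
  have hZ1 : 1 ≤ Z := by
    have : 0 ≤ ‖s‖ := norm_nonneg s
    nlinarith
  set Y : ℝ := Real.log Z with hY
  have hY0 : 0 ≤ Y := Real.log_nonneg hZ1
  set N : ℕ := ⌈Z ^ 2⌉₊ with hN
  have hNZ : Z ^ 2 ≤ N := Nat.le_ceil _
  have hN1' : (1 : ℝ) ≤ N := le_trans (one_le_pow₀ hZ1) hNZ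
  have hN1 : 1 ≤ N := by exact_mod_cast hN1'
  have hNup : (N : ℝ) ≤ 2 * Z ^ 2 := by
    have := (Nat.ceil_lt_add_one (show (0 : ℝ) ≤ Z ^ 2 by positivity)).le
    have h1 : (1 : ℝ) ≤ Z ^ 2 := one_le_pow₀ hZ1
    linarith
  have hlogN : Real.log N ≤ 1 + 2 * Y := by
    calc Real.log N ≤ Real.log (2 * Z ^ 2) := Real.log_le_log (by linarith) hNup
      _ = Real.log 2 + 2 * Y := by
          rw [Real.log_mul (by norm_num) (by positivity), Real.log_pow]
          norm_num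
          rfl
      _ ≤ 1 + 2 * Y := by
          have := Real.log_two_lt_d9
          linarith
  have hlogN0 : 0 ≤ Real.log N := Real.log_nonneg hN1'
  have hsqrtN : Z ≤ Real.sqrt N := Real.le_sqrt_of_sq_le hNZ
  have hs0 : s ≠ 0 := by
    rintro rfl
    simp at hs
    linarith
  have hsum := summable_Lj ha j hs
  have hlim := hsum.hasSum.tendsto_sum_nat
  have key : ∀ M : ℕ, N ≤ M →
      ‖∑ n ∈ range M, LSeries.term (fun n => ((Real.log n : ℝ) : ℂ) ^ j * a n) s n‖ ≤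
      (2 ^ (j + 1) + D * (8 + 6 * j)) * (1 + Y) ^ (j + 1) := by
    intro M hM
    have e1 : ∑ n ∈ range M, LSeries.term (fun n => ((Real.log n : ℝ) : ℂ) ^ j * a n) s n =
        ∑ n ∈ range N, a n * ff j s n + ∑ n ∈ Ico N M, a n * ff j s n := by
      rw [Finset.sum_range_add_sum_Ico _ hM]
      exact Finset.sum_congr rfl (fun n _ => term_Lj a j hs0 n)
    rw [e1]
    have hhead : ‖∑ n ∈ range N, a n * ff j s n‖ ≤ (Real.log N) ^ j * (1 + Real.log N) := by
      calc ‖∑ n ∈ range N, a n * ff j s n‖ ≤ ∑ n ∈ range N, ‖a n * ff j s n‖ := norm_sum_le _ _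
        _ = ∑ n ∈ Ico 1 N, ‖a n * ff j s n‖ := by
            rw [Finset.range_eq_Ico, ← Finset.sum_Ico_consecutive _ (Nat.zero_le 1) hN1]
            simp [ff, hs0]
        _ ≤ ∑ n ∈ Ico 1 N, (Real.log N) ^ j * (1 / (n : ℝ)) := by
            apply Finset.sum_le_sum
            intro n hn
            have hn1 : (1 : ℝ) ≤ n := by exact_mod_cast (Finset.mem_Ico.1 hn).1
            have hnN : (n : ℝ) ≤ N := by exact_mod_cast (Finset.mem_Ico.1 hn).2.le
            rw [norm_mul, norm_ff hn1]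
            have h1 : (n : ℝ) ^ (-s.re) ≤ 1 / (n : ℝ) := by
              rw [one_div, ← Real.rpow_neg_one]
              apply Real.rpow_le_rpow_of_exponent_le hn1
              linarith
            have h2 : (Real.log n) ^ j ≤ (Real.log N) ^ j := by
              apply pow_le_pow_left₀ (Real.log_nonneg hn1)
              exact Real.log_le_log (by linarith) hnN
            have h3 : 0 ≤ (Real.log n) ^ j := pow_nonneg (Real.log_nonneg hn1) _
            have h4 : 0 ≤ (n : ℝ) ^ (-s.re) := by positivity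
            calc ‖a n‖ * ((Real.log n) ^ j * (n : ℝ) ^ (-s.re)) ≤
                1 * ((Real.log N) ^ j * (1 / (n : ℝ))) := by
                  apply mul_le_mul (ha n) _ (by positivity) (by norm_num)
                  exact mul_le_mul h2 h1 h4 (h3.trans h2)
              _ = _ := one_mul _
        _ = (Real.log N) ^ j * ∑ n ∈ Ico 1 N, (1 / (n : ℝ)) := by rw [Finset.mul_sum]
        _ ≤ (Real.log N) ^ j * (1 + Real.log N) := by
            apply mul_le_mul_of_nonneg_left (sum_inv_le N) (by positivity)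
    have htail := tail_bound hK (by linarith) j hs.le hN1 hM
    have htail2 : K * ((2 * j + 4) ^ j * (8 + 6 * (j + ‖s‖))) / Real.sqrt N ≤ D * (8 + 6 * j) := by
      rw [div_le_iff₀ (by linarith)]
      have h0 : 0 ≤ ‖s‖ := norm_nonneg s
      have h1 : 8 + 6 * ((j : ℝ) + ‖s‖) ≤ (8 + 6 * j) * (1 + ‖s‖) := by
        have : (0 : ℝ) ≤ j := Nat.cast_nonneg j
        nlinarith [mul_nonneg this h0]
      calc K * (D * (8 + 6 * (j + ‖s‖))) ≤ K * (D * ((8 + 6 * j) * (1 + ‖s‖))) := by gcongr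
        _ = D * (8 + 6 * j) * Z := by rw [hZ]; ring
        _ ≤ D * (8 + 6 * j) * Real.sqrt N := by gcongr
    have h1Y : 1 ≤ (1 + Y) ^ (j + 1) := one_le_pow₀ (by linarith)
    calc _ ≤ ‖∑ n ∈ range N, a n * ff j s n‖ + ‖∑ n ∈ Ico N M, a n * ff j s n‖ := norm_add_le _ _
      _ ≤ (Real.log N) ^ j * (1 + Real.log N) + D * (8 + 6 * j) := by
          gcongr
          exact htail.trans htail2
      _ ≤ (2 * (1 + Y)) ^ j * (2 * (1 + Y)) + D * (8 + 6 * j) * (1 + Y) ^ (j + 1) := by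
          have h2 : (Real.log N) ^ j ≤ (2 * (1 + Y)) ^ j :=
            pow_le_pow_left₀ hlogN0 (by linarith) _
          have h3 : D * (8 + 6 * j) ≤ D * (8 + 6 * j) * (1 + Y) ^ (j + 1) :=
            le_mul_of_one_le_right (by positivity) h1Y
          have h4 : 1 + Real.log N ≤ 2 * (1 + Y) := by linarith
          gcongr
      _ = _ := by rw [mul_pow]; ring
  refine le_of_tendsto hlim.norm ?_
  filter_upwards [Filter.eventually_ge_atTop N] with M hM
  exact key M hM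

end Pool.Agent.MP89da58.S
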