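import Pool.Agent.Lib.MP_89da58_nt.S.Page

set_option autoImplicit false

/-!
Polynomial lower bounds for `L(1 + exp(-m) + it, χ)` at good scales.
-/

namespace Pool.Agent.MP89da58.S

open Finset Filter

lemma log_five_le : Real.log 5 ≤ 2 := by
  have e3 : Real.log 5 = Real.log 2 + Real.log 2 + Real.log 1.25 := by
    rw [← Real.log_mul (by norm_num) (by norm_num), ← Real.log_mul (by norm_num) (by norm_num)]
    norm_num
  have e4 : Real.log 1.25 ≤ 1.25 - 1 := Real.log_le_sub_one_of_pos (by norm_num)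
  have e5 := Real.log_two_lt_d9
  rw [e3]; norm_num at e4 ⊢; linarith

lemma log_bound {B D m q : ℕ} (hm : 1 ≤ m) (hq : 1 ≤ q) (hqB : (q : ℝ) ≤ Real.exp (B * m))
    {s : ℂ} (hre : |s.re| ≤ 2) (him : |s.im| ≤ 2 * Real.exp (D * m)) :
    0 ≤ Real.log (q * (1 + ‖s‖)) ∧ 1 + Real.log (q * (1 + ‖s‖)) ≤ (B + D + 3) * m := by
  have hm1 : (1 : ℝ) ≤ m := by exact_mod_cast hm
  have hq1 : (1 : ℝ) ≤ q := by exact_mod_cast hq
  have hn : ‖s‖ ≤ 2 + 2 * Real.exp (D * m) := (Complex.norm_le_abs_re_add_abs_im s).trans (by linarith)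
  have hn0 : 0 ≤ ‖s‖ := norm_nonneg s
  have hE : 1 ≤ Real.exp (D * m) := Real.one_le_exp (by positivity)
  constructor
  · apply Real.log_nonneg
    nlinarith only [hq1, hn0]
  · rw [Real.log_mul (by linarith) (by linarith)]
    have h1 : Real.log q ≤ B * m := by
      rw [← Real.log_exp ((B : ℝ) * m)]
      exact Real.log_le_log (by linarith) hqB
    have h2 : Real.log (1 + ‖s‖) ≤ 2 + D * m := by
      calc Real.log (1 + ‖s‖) ≤ Real.log (5 * Real.exp (D * m)) :=
            Real.log_le_log (by linarith) (by linarith)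
        _ = Real.log 5 + D * m := by
            rw [Real.log_mul (by norm_num) (Real.exp_pos _).ne', Real.log_exp]
        _ ≤ _ := by linarith [log_five_le]
    have : (0 : ℝ) ≤ B := Nat.cast_nonneg B
    have : (0 : ℝ) ≤ D := Nat.cast_nonneg D
    nlinarith only [hm1, h1, h2]

/-- eventually a power of `m` beats any constant multiple of a smaller power -/
lemma ev_const_le (K : ℝ) : ∀ᶠ m : ℕ in atTop, K ≤ m :=
  (tendsto_natCast_atTop_atTop (R := ℝ)).eventually_ge_atTop K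

lemma ev_exp_small (k : ℕ) (ε : ℝ) (hε : 0 < ε) :
    ∀ᶠ m : ℕ in atTop, (m : ℝ) ^ k * Real.exp (-m) ≤ ε := by
  have := (Real.tendsto_pow_mul_exp_neg_atTop_nhds_zero k).comp
    (tendsto_natCast_atTop_atTop (R := ℝ))
  exact this.eventually_le_const hε

/-- The lower bound for all primitive characters at a good scale. -/
theorem lower_all (B D : ℕ) : ∀ᶠ m : ℕ in atTop, Good B m → ∀ (r : ℕ) (χ : DirichletCharacter ℂ r),
    2 ≤ r → (r : ℝ) ≤ Real.exp (B * m) → χ.IsPrimitive → ∀ t : ℝ, |t| ≤ Real.exp (D * m) →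
      1 / (m : ℝ) ^ 41 ≤
        ‖LSeries (fun n => χ n) (((1 + Real.exp (-m) : ℝ) : ℂ) + Complex.I * t)‖ := by
  obtain ⟨C₁, hC₁, hC1⟩ := norm_LjChar_le 1
  obtain ⟨C₀, hC₀, hC0⟩ := norm_LjChar_le 0
  obtain ⟨C₂, hC₂, hC2⟩ := norm_LTriv_le
  set A : ℝ := B + D + 3 with hA
  have hA1 : 1 ≤ A := by
    have : (0 : ℝ) ≤ B := Nat.cast_nonneg B
    have : (0 : ℝ) ≤ D := Nat.cast_nonneg D
    rw [hA]; linarith
  filter_upwards [eventually_ge_atTop 432, ev_const_le (2 * C₁ * A ^ 2), ev_const_le (C₀ * A),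
    ev_const_le (C₂ * A), ev_exp_small 50 (1 / 432) (by norm_num)] with m hm432 hm1 hm2 hm3 hm4
  intro hgood r χ hr hrB hprim t ht
  have hm : 1 ≤ m := by omega
  have hmr : (432 : ℝ) ≤ m := by exact_mod_cast hm432
  have hmr1 : (1 : ℝ) ≤ m := by linarith
  have hmr0 : (0 : ℝ) < m := by linarith
  have hr0 : r ≠ 0 := by omega
  have hχ := ne_one_of_primitive hr hprim
  set c : ℝ := 1 + Real.exp (-(m : ℝ)) with hc
  have hexp0 : 0 < Real.exp (-(m : ℝ)) := Real.exp_pos _
  have hc1 : 1 < c := by rw [hc]; linarith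
  set M : ℝ := (m : ℝ) ^ 10 with hM
  have hM1 : 1 ≤ M := one_le_pow₀ hmr1
  set δ : ℝ := 1 / (432 * M ^ 5) with hδ
  have hδ0 : 0 < δ := by positivity
  have hδ1 : δ ≤ 1 := by
    rw [hδ, div_le_one (by positivity)]
    have : 1 ≤ M ^ 5 := one_le_pow₀ hM1
    linarith
  have hcδ : c ≤ 1 + δ := by
    have h1 : Real.exp (-(m : ℝ)) ≤ δ := by
      rw [hδ, le_div_iff₀ (by positivity)]
      have e : M ^ 5 = (m : ℝ) ^ 50 := by rw [hM, ← pow_mul]
      rw [e]
      calc Real.exp (-(m : ℝ)) * (432 * (m : ℝ) ^ 50) = 432 * ((m : ℝ) ^ 50 * Real.exp (-(m : ℝ))) := by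
            ring
        _ ≤ 432 * (1 / 432) := by gcongr
        _ = 1 := by norm_num
    rw [hc]; linarith
  have hE : 1 ≤ Real.exp (D * m) := Real.one_le_exp (by positivity)
  have hpow3 : (m : ℝ) ^ 3 ≤ M := pow_le_pow_right₀ hmr1 (by norm_num)
  -- derivative bound
  have hder : ∀ σ y : ℝ, c ≤ σ → σ ≤ 2 → |y| ≤ Real.exp (D * m) →
      ‖Lj (fun n => χ n) 1 (σ + Complex.I * y)‖ ≤ C₁ * A ^ 2 * (m : ℝ) ^ 2 := by
    intro σ y hσ hσ2 hy
    have hlb := log_bound (B := B) (D := D) hm (by omega : 1 ≤ r) hrB (s := σ + Complex.I * y)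
      (by simp; rw [abs_of_nonneg (by linarith)]; exact hσ2) (by simp; linarith)
    refine (hC1 r hr0 χ hχ _ (by simp; linarith)).trans ?_
    rw [mul_assoc]
    apply mul_le_mul_of_nonneg_left _ (by linarith)
    rw [← mul_pow]
    exact pow_le_pow_left₀ (by linarith [hlb.1]) hlb.2 _
  have hder' : C₁ * A ^ 2 * (m : ℝ) ^ 2 ≤ (m : ℝ) ^ 3 / 2 := by
    have h0 : (0 : ℝ) ≤ (m : ℝ) ^ 2 := by positivity
    calc C₁ * A ^ 2 * (m : ℝ) ^ 2 = (2 * C₁ * A ^ 2) * (m : ℝ) ^ 2 / 2 := by ring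
      _ ≤ m * (m : ℝ) ^ 2 / 2 := by gcongr
      _ = _ := by ring
  by_cases hcase : χ ^ 2 = 1 ∧ |t| < 1 / (m : ℝ) ^ 9
  · -- quadratic, near the real axis
    obtain ⟨hsq, htsmall⟩ := hcase
    have hnb := hgood r χ
    have hL : 1 / (m : ℝ) ^ 6 ≤ ‖LSeries (fun n => χ n) (c : ℂ)‖ := by
      by_contra hlt
      rw [not_le] at hlt
      exact hnb ⟨hr, hrB, hprim, hsq, hlt⟩
    have hmv := norm_LSeries_sub_le hr0 χ (s := (c : ℂ)) (s' := (c : ℂ) + Complex.I * t)
      (M := (m : ℝ) ^ 3 / 2) (by simpa using hc1) (by simpa using hc1) (by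
        intro z hz
        rw [segment_eq_image_lineMap] at hz
        obtain ⟨u, hu, rfl⟩ := hz
        have e : (AffineMap.lineMap (c : ℂ) ((c : ℂ) + Complex.I * t)) u =
            (c : ℂ) + Complex.I * ((u * t : ℝ) : ℂ) := by
          simp only [AffineMap.lineMap_apply, vsub_eq_sub, vadd_eq_add, Complex.real_smul]
          push_cast
          ring
        rw [e]
        refine (hder c (u * t) le_rfl (by linarith) ?_).trans hder'
        rw [abs_mul, abs_of_nonneg hu.1]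
        calc u * |t| ≤ 1 * |t| := mul_le_mul_of_nonneg_right hu.2 (abs_nonneg t)
          _ ≤ _ := by linarith)
    have e1 : ‖(c : ℂ) + Complex.I * t - c‖ = |t| := by
      rw [add_sub_cancel_left, norm_mul, Complex.norm_I, one_mul, Complex.norm_real,
        Real.norm_eq_abs]
    rw [e1] at hmv
    have h1 : (m : ℝ) ^ 3 / 2 * |t| ≤ 1 / (2 * (m : ℝ) ^ 6) := by
      calc (m : ℝ) ^ 3 / 2 * |t| ≤ (m : ℝ) ^ 3 / 2 * (1 / (m : ℝ) ^ 9) := by gcongr
        _ = _ := by field_simp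
    have h2 : ‖LSeries (fun n => χ n) (c : ℂ)‖ ≤ ‖LSeries (fun n => χ n) ((c : ℂ) + Complex.I * t)‖ +
        ‖LSeries (fun n => χ n) ((c : ℂ) + Complex.I * t) - LSeries (fun n => χ n) (c : ℂ)‖ := by
      rw [norm_sub_rev]
      exact norm_le_insert' _ _
    have h3 : 1 / (m : ℝ) ^ 6 - 1 / (2 * (m : ℝ) ^ 6) = 1 / (2 * (m : ℝ) ^ 6) := by
      field_simp; norm_num
    have h4 : 1 / (m : ℝ) ^ 41 ≤ 1 / (2 * (m : ℝ) ^ 6) := by
      apply one_div_le_one_div_of_le (by positivity)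
      have : (m : ℝ) ^ 7 ≤ (m : ℝ) ^ 41 := pow_le_pow_right₀ hmr1 (by norm_num)
      have h7 : (m : ℝ) ^ 7 = m * (m : ℝ) ^ 6 := by ring
      have h6 : (0 : ℝ) ≤ (m : ℝ) ^ 6 := by positivity
      have h12 := mul_le_mul_of_nonneg_right hmr h6
      clear * - h12 h7 this h6
      linarith
    linarith only [hL, hmv, h1, h2, h3, h4]
  · -- otherwise
    have h2 : ‖LSeries (fun n => (χ ^ 2 : DirichletCharacter ℂ r) n)
        (1 + δ + 2 * Complex.I * t)‖ ≤ M := by
      have hs : (1 + δ + 2 * Complex.I * t : ℂ) = ((1 + δ : ℝ) : ℂ) + Complex.I * ((2 * t : ℝ) : ℂ) := by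
        push_cast; ring
      have hre : (1 + δ + 2 * Complex.I * t : ℂ).re = 1 + δ := by rw [hs]; simp
      have him : (1 + δ + 2 * Complex.I * t : ℂ).im = 2 * t := by rw [hs]; simp
      have hlb := log_bound (B := B) (D := D) hm (by omega : 1 ≤ r) hrB
        (s := (1 + δ + 2 * Complex.I * t : ℂ))
        (by rw [hre, abs_of_nonneg (by linarith)]; linarith)
        (by rw [him, abs_mul, abs_of_nonneg (by norm_num : (0 : ℝ) ≤ 2)]; linarith)
      have hlogA : 1 + Real.log (r * (1 + ‖(1 + δ + 2 * Complex.I * t : ℂ)‖)) ≤ A * m := hlb.2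
      by_cases hsq : χ ^ 2 = 1
      · have ht9 : 1 / (m : ℝ) ^ 9 ≤ |t| := by
          by_contra h
          rw [not_le] at h
          exact hcase ⟨hsq, h⟩
        rw [hsq]
        refine (hC2 r hr0 _ (by rw [hre]; linarith)).trans ?_
        have h5 : |2 * t| ≤ ‖(1 + δ + 2 * Complex.I * t : ℂ) - 1‖ := by
          have := Complex.abs_im_le_norm ((1 + δ + 2 * Complex.I * t : ℂ) - 1)
          rw [Complex.sub_im, him, Complex.one_im, sub_zero] at this
          exact this
        have ht0 : 0 < |t| := lt_of_lt_of_le (by positivity) ht9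
        have h6 : 2 / ‖(1 + δ + 2 * Complex.I * t : ℂ) - 1‖ ≤ (m : ℝ) ^ 9 := by
          have h7 : (0 : ℝ) < |2 * t| := by rw [abs_mul]; positivity
          calc 2 / ‖(1 + δ + 2 * Complex.I * t : ℂ) - 1‖ ≤ 2 / |2 * t| := by (clear * - h7 h5; gcongr)
            _ = 1 / |t| := by
                rw [abs_mul, abs_of_nonneg (by norm_num : (0 : ℝ) ≤ 2)]
                field_simp
            _ ≤ 1 / (1 / (m : ℝ) ^ 9) := by gcongr
            _ = (m : ℝ) ^ 9 := by field_simp
        calc _ ≤ C₂ * (A * m) + (m : ℝ) ^ 9 := by (clear * - hlogA hC₂ h6; gcongr)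
          _ = (C₂ * A) * m + (m : ℝ) ^ 9 := by ring
          _ ≤ m * m + (m : ℝ) ^ 9 := by gcongr
          _ ≤ M := by
              have h8 : (m : ℝ) * m ≤ (m : ℝ) ^ 9 := by
                rw [← pow_two]; exact pow_le_pow_right₀ hmr1 (by norm_num)
              have h9 : (m : ℝ) ^ 10 = m * (m : ℝ) ^ 9 := by ring
              have h10 : (0 : ℝ) ≤ (m : ℝ) ^ 9 := by positivity
              rw [hM, h9]
              have h12 := mul_le_mul_of_nonneg_right hmr h10
              clear * - h12 h8 h10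
              linarith
      · have h5 := hC0 r hr0 (χ ^ 2) hsq (1 + δ + 2 * Complex.I * t) (by rw [hre]; linarith)
        rw [Lj_zero_eq, zero_add, pow_one] at h5
        refine h5.trans ?_
        calc C₀ * (1 + Real.log (r * (1 + ‖(1 + δ + 2 * Complex.I * t : ℂ)‖))) ≤ C₀ * (A * m) := by
              (clear * - hlogA hC₀; gcongr)
          _ = (C₀ * A) * m := by ring
          _ ≤ m * m := by (clear * - hm2 hm432; gcongr)
          _ ≤ M := by rw [← pow_two, hM]; exact pow_le_pow_right₀ hmr1 (by norm_num)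
    have h3 : ‖LSeries (fun n => (1 : DirichletCharacter ℂ r) n) (1 + δ)‖ ≤ 3 / δ := by
      have hs : (1 + δ : ℂ) = ((1 + δ : ℝ) : ℂ) := by push_cast; ring
      have hre : (1 + δ : ℂ).re = 1 + δ := by rw [hs]; simp
      have him : (1 + δ : ℂ).im = 0 := by rw [hs]; simp
      have hlb := log_bound (B := B) (D := D) hm (by omega : 1 ≤ r) hrB (s := (1 + δ : ℂ))
        (by rw [hre, abs_of_nonneg (by linarith)]; linarith)
        (by rw [him, abs_zero]; positivity)
      have hlogA : 1 + Real.log (r * (1 + ‖(1 + δ : ℂ)‖)) ≤ A * m := hlb.2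
      refine (hC2 r hr0 _ (by rw [hre]; linarith)).trans ?_
      have h5 : ‖(1 + δ : ℂ) - 1‖ = δ := by
        rw [add_sub_cancel_left, Complex.norm_real, Real.norm_of_nonneg hδ0.le]
      rw [h5]
      have h6 : C₂ * (1 + Real.log (r * (1 + ‖(1 + δ : ℂ)‖))) ≤ 1 / δ := by
        calc _ ≤ C₂ * (A * m) := by gcongr
          _ = (C₂ * A) * m := by ring
          _ ≤ m * m := by gcongr
          _ ≤ M := by rw [← pow_two, hM]; exact pow_le_pow_right₀ hmr1 (by norm_num)
          _ ≤ 1 / δ := by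
              rw [hδ, one_div_one_div]
              have : M ≤ M ^ 5 := by
                calc M = M ^ 1 := (pow_one M).symm
                  _ ≤ M ^ 5 := pow_le_pow_right₀ hM1 (by norm_num)
              linarith
      have h7 : 3 / δ = 1 / δ + 2 / δ := by ring
      rw [h7]
      linarith only [h6]
    have hfin := lower341 hr0 χ (t := t) (c := c) hM1 hδ hc1 hcδ (by
      intro σ hσ hσ2
      refine (hder σ t hσ (by linarith) ht).trans (hder'.trans ?_)
      linarith only [hM1, hpow3, hpow3, show (0 : ℝ) ≤ (m : ℝ) ^ 3 by positivity]) h2 h3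
    refine le_trans ?_ hfin
    apply one_div_le_one_div_of_le (by positivity)
    have e : M ^ 4 = (m : ℝ) ^ 40 := by rw [hM, ← pow_mul]
    rw [e]
    have h41 : (m : ℝ) ^ 41 = m * (m : ℝ) ^ 40 := by ring
    have h40 : (0 : ℝ) ≤ (m : ℝ) ^ 40 := by positivity
    rw [h41]
    exact mul_le_mul_of_nonneg_right hmr h40

end Pool.Agent.MP89da58.S
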