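import Pool.Agent.Lib.MP_89da58_nt.S.CharBound
import Pool.Agent.Lib.MP_89da58_nt.S.Lower

set_option autoImplicit false

/-!
Page's repulsion of exceptional characters; existence of good scales.
-/

namespace Pool.Agent.MP89da58.S

open Finset Filter

lemma eq_of_product_eq_one {r₁ r₂ : ℕ} (hr₁ : r₁ ≠ 0) (hr₂ : r₂ ≠ 0) (χ₁ : DirichletCharacter ℂ r₁)
    (χ₂ : DirichletCharacter ℂ r₂) (p₁ : χ₁.IsPrimitive) (p₂ : χ₂.IsPrimitive) (h₂ : χ₂ ^ 2 = 1)
    (h : DirichletCharacter.changeLevel (dvd_mul_right r₁ r₂) χ₁ *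
        DirichletCharacter.changeLevel (dvd_mul_left r₂ r₁) χ₂ = 1) :
    (⟨r₁, χ₁⟩ : Σ r, DirichletCharacter ℂ r) = ⟨r₂, χ₂⟩ := by
  have hne : NeZero (r₁ * r₂) := ⟨Nat.mul_ne_zero hr₁ hr₂⟩
  have hsq : DirichletCharacter.changeLevel (dvd_mul_left r₂ r₁) χ₂ *
      DirichletCharacter.changeLevel (dvd_mul_left r₂ r₁) χ₂ = 1 := by
    rw [← map_mul, ← pow_two, h₂, map_one]
  have heq : DirichletCharacter.changeLevel (dvd_mul_right r₁ r₂) χ₁ =
      DirichletCharacter.changeLevel (dvd_mul_left r₂ r₁) χ₂ := by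
    rw [← mul_left_inj (DirichletCharacter.changeLevel (dvd_mul_left r₂ r₁) χ₂), h, hsq]
  have hr : r₁ = r₂ := by
    have h3 := congrArg DirichletCharacter.conductor heq
    rw [DirichletCharacter.conductor_changeLevel, DirichletCharacter.conductor_changeLevel,
      (DirichletCharacter.isPrimitive_def _).1 p₁, (DirichletCharacter.isPrimitive_def _).1 p₂] at h3
    exact h3
  subst hr
  have := DirichletCharacter.changeLevel_injective (dvd_mul_right r₁ r₁) heq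
  rw [this]

/-- An exceptional quadratic character at the scale `log X = exp m`. -/
def Bad (B m r : ℕ) (χ : DirichletCharacter ℂ r) : Prop :=
  2 ≤ r ∧ (r : ℝ) ≤ Real.exp (B * m) ∧ χ.IsPrimitive ∧ χ ^ 2 = 1 ∧
    ‖LSeries (fun n => χ n) ((1 + Real.exp (-m) : ℝ) : ℂ)‖ < 1 / (m : ℝ) ^ 6

/-- A scale without exceptional characters. -/
def Good (B m : ℕ) : Prop := ∀ (r : ℕ) (χ : DirichletCharacter ℂ r), ¬ Bad B m r χ

lemma ne_one_of_primitive {r : ℕ} (hr : 2 ≤ r) {χ : DirichletCharacter ℂ r} (p : χ.IsPrimitive) :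
    χ ≠ 1 := by
  rintro rfl
  have : NeZero r := ⟨by omega⟩
  rw [DirichletCharacter.isPrimitive_def, DirichletCharacter.conductor_one] at p
  omega

lemma log_three_le : Real.log 3 ≤ 2 := by
  have : Real.log 3 ≤ 3 - 1 := Real.log_le_sub_one_of_pos (by norm_num)
  linarith

/-- the derivative on the real segment -/
lemma real_deriv_bound {C₁ : ℝ} (hC₁ : 1 ≤ C₁)
    (hC : ∀ (q : ℕ), q ≠ 0 → ∀ χ : DirichletCharacter ℂ q,
    χ ≠ 1 → ∀ s : ℂ, 1 < s.re →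
      ‖Lj (fun n => χ n) 1 s‖ ≤ C₁ * (1 + Real.log (q * (1 + ‖s‖))) ^ (1 + 1))
    {B m r : ℕ} (hm : 1 ≤ m) (hr : 2 ≤ r) (hrB : (r : ℝ) ≤ Real.exp (B * m))
    {χ : DirichletCharacter ℂ r} (hχ : χ ≠ 1) {x y : ℝ} (hx : 1 < x) (hx2 : x ≤ 2) (hy : 1 < y)
    (hy2 : y ≤ 2) :
    ‖LSeries (fun n => χ n) (y : ℂ) - LSeries (fun n => χ n) (x : ℂ)‖ ≤
      C₁ * ((B + 3) * m) ^ 2 * |y - x| := by
  have hm1 : (1 : ℝ) ≤ m := by exact_mod_cast hm
  have hr1 : (1 : ℝ) ≤ r := by exact_mod_cast (by omega : 1 ≤ r)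
  have h := norm_LSeries_sub_le (by omega : r ≠ 0) χ (s := (x : ℂ)) (s' := (y : ℂ))
    (M := C₁ * ((B + 3) * m) ^ 2) (by simpa using hx) (by simpa using hy) (by
      intro z hz
      rw [segment_eq_image_lineMap] at hz
      obtain ⟨u, hu, rfl⟩ := hz
      have e : (AffineMap.lineMap (x : ℂ) (y : ℂ)) u = (((1 - u) * x + u * y : ℝ) : ℂ) := by
        simp only [AffineMap.lineMap_apply, vsub_eq_sub, vadd_eq_add, Complex.real_smul]
        push_cast
        ring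
      rw [e]
      set v : ℝ := (1 - u) * x + u * y with hv
      have hv1 : 1 < v := by
        rcases eq_or_lt_of_le hu.1 with h0 | h0
        · rw [hv, ← h0]; linarith
        · have : 0 ≤ (1 - u) * (x - 1) := mul_nonneg (by linarith [hu.2]) (by linarith)
          have : 0 < u * (y - 1) := mul_pos h0 (by linarith)
          rw [hv]; nlinarith
      have hv2 : v ≤ 2 := by
        have : (1 - u) * (2 - x) ≥ 0 := mul_nonneg (by linarith [hu.2]) (by linarith)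
        have : u * (2 - y) ≥ 0 := mul_nonneg hu.1 (by linarith)
        rw [hv]; nlinarith
      refine (hC r (by omega) χ hχ (v : ℂ) (by simpa using hv1)).trans ?_
      rw [Complex.norm_real, Real.norm_of_nonneg (by linarith)]
      have hlog : Real.log (r * (1 + v)) ≤ B * m + 2 := by
        rw [Real.log_mul (by linarith) (by linarith)]
        have h1 : Real.log r ≤ B * m := by
          rw [← Real.log_exp ((B : ℝ) * m)]
          exact Real.log_le_log (by linarith) hrB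
        have h2 : Real.log (1 + v) ≤ 2 := by
          refine le_trans (Real.log_le_log (by linarith) (by linarith : 1 + v ≤ 3)) log_three_le
        linarith
      have hlog0 : 0 ≤ Real.log (r * (1 + v)) := Real.log_nonneg (by nlinarith)
      have h3 : 1 + Real.log (r * (1 + v)) ≤ (B + 3) * m := by
        have : (0 : ℝ) ≤ B := Nat.cast_nonneg B
        nlinarith
      apply mul_le_mul_of_nonneg_left _ (by linarith)
      apply pow_le_pow_left₀ (by linarith) h3)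
  rw [← Complex.ofReal_sub, Complex.norm_real] at h
  exact h

/-- Repulsion: two different nearly exceptional characters cannot coexist. -/
theorem repulsion (B : ℕ) : ∀ᶠ m : ℕ in atTop, ∀ (r₁ r₂ : ℕ) (χ₁ : DirichletCharacter ℂ r₁)
    (χ₂ : DirichletCharacter ℂ r₂), 2 ≤ r₁ → 2 ≤ r₂ → (r₁ : ℝ) ≤ Real.exp (B * m) →
    (r₂ : ℝ) ≤ Real.exp (B * m) → χ₁.IsPrimitive → χ₂.IsPrimitive → χ₁ ^ 2 = 1 → χ₂ ^ 2 = 1 →
    ‖LSeries (fun n => χ₁ n) ((1 + Real.exp (-m) : ℝ) : ℂ)‖ ≤ 2 / (m : ℝ) ^ 6 →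
    ‖LSeries (fun n => χ₂ n) ((1 + Real.exp (-m) : ℝ) : ℂ)‖ ≤ 2 / (m : ℝ) ^ 6 →
    (⟨r₁, χ₁⟩ : Σ r, DirichletCharacter ℂ r) = ⟨r₂, χ₂⟩ := by
  obtain ⟨C₁, hC₁, hC⟩ := norm_LjChar_le 1
  obtain ⟨C₀, hC₀, hCC⟩ := norm_LjChar_le 0
  set G : ℝ := 2 + C₁ * (B + 3) ^ 2 with hG
  have hG0 : 0 < G := by positivity
  set H : ℝ := 12 * G ^ 2 * C₀ * (2 * B + 3) with hH
  have ev1 : ∀ᶠ m : ℕ in atTop, H < m := by
    have := tendsto_natCast_atTop_atTop (R := ℝ)
    exact this.eventually_gt_atTop H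
  have ev2 : ∀ᶠ m : ℕ in atTop, (m : ℝ) ^ 8 * Real.exp (-m) ≤ 1 := by
    have := (Real.tendsto_pow_mul_exp_neg_atTop_nhds_zero 8).comp
      (tendsto_natCast_atTop_atTop (R := ℝ))
    have h1 := this.eventually_le_const (show (0 : ℝ) < 1 by norm_num)
    exact h1
  filter_upwards [ev1, ev2, eventually_ge_atTop 1] with m hmH hm8 hm r₁ r₂ χ₁ χ₂ hr₁ hr₂ hB₁ hB₂ p₁ p₂
    q₁ q₂ b₁ b₂
  by_contra hne
  have hm1 : (1 : ℝ) ≤ m := by exact_mod_cast hm
  have hm0 : (0 : ℝ) < m := by linarith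
  have hprod : DirichletCharacter.changeLevel (dvd_mul_right r₁ r₂) χ₁ *
        DirichletCharacter.changeLevel (dvd_mul_left r₂ r₁) χ₂ ≠ 1 := by
    intro h
    exact hne (eq_of_product_eq_one (by omega) (by omega) χ₁ χ₂ p₁ p₂ q₂ h)
  set ε : ℝ := 1 / (m : ℝ) ^ 8 with hε
  have hε0 : 0 < ε := by positivity
  have hε1 : ε ≤ 1 := by
    rw [hε, div_le_one (by positivity)]
    exact one_le_pow₀ hm1
  have hexp0 : 0 < Real.exp (-(m : ℝ)) := Real.exp_pos _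
  have hexpε : Real.exp (-(m : ℝ)) ≤ ε := by
    rw [hε, le_div_iff₀ (by positivity)]
    linarith
  have hbound : ∀ (r : ℕ) (χ : DirichletCharacter ℂ r), 2 ≤ r → (r : ℝ) ≤ Real.exp (B * m) →
      χ.IsPrimitive → ‖LSeries (fun n => χ n) ((1 + Real.exp (-m) : ℝ) : ℂ)‖ ≤ 2 / (m : ℝ) ^ 6 →
      ‖LSeries (fun n => χ n) ((1 + ε : ℝ) : ℂ)‖ ≤ G / (m : ℝ) ^ 6 := by
    intro r χ hr hrB hp hb
    have h1 := real_deriv_bound hC₁ hC hm hr hrB (ne_one_of_primitive hr hp)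
      (x := 1 + Real.exp (-m)) (y := 1 + ε) (by linarith) (by linarith) (by linarith) (by linarith)
    have h2 : |1 + ε - (1 + Real.exp (-(m : ℝ)))| ≤ ε := by
      rw [abs_of_nonneg (by linarith)]
      linarith
    have h3 : C₁ * ((B + 3) * m) ^ 2 * |1 + ε - (1 + Real.exp (-(m : ℝ)))| ≤
        C₁ * ((B + 3) * m) ^ 2 * ε := by
      apply mul_le_mul_of_nonneg_left h2 (by positivity)
    have h4 : C₁ * ((B + 3) * m) ^ 2 * ε = C₁ * (B + 3) ^ 2 / (m : ℝ) ^ 6 := by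
      rw [hε]
      field_simp
    calc ‖LSeries (fun n => χ n) ((1 + ε : ℝ) : ℂ)‖ ≤
          ‖LSeries (fun n => χ n) ((1 + Real.exp (-m) : ℝ) : ℂ)‖ +
          ‖LSeries (fun n => χ n) ((1 + ε : ℝ) : ℂ) -
            LSeries (fun n => χ n) ((1 + Real.exp (-m) : ℝ) : ℂ)‖ := norm_le_insert' _ _
      _ ≤ 2 / (m : ℝ) ^ 6 + C₁ * (B + 3) ^ 2 / (m : ℝ) ^ 6 := by
          gcongr
          exact h1.trans (h3.trans_eq h4)
      _ = G / (m : ℝ) ^ 6 := by rw [hG]; ring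
  have hL1 := hbound r₁ χ₁ hr₁ hB₁ p₁ b₁
  have hL2 := hbound r₂ χ₂ hr₂ hB₂ p₂ b₂
  have h4 := four_product χ₁ χ₂ q₁ q₂ (x := 1 + ε) (by linarith)
  set χ₃ : DirichletCharacter ℂ (r₁ * r₂) :=
    DirichletCharacter.changeLevel (dvd_mul_right r₁ r₂) χ₁ *
        DirichletCharacter.changeLevel (dvd_mul_left r₂ r₁) χ₂ with hχ₃
  -- zeta
  have hζ : ‖LSeries 1 ((1 + ε : ℝ) : ℂ)‖ ≤ 12 * (m : ℝ) ^ 8 := by
    refine (norm_zeta_le (s := ((1 + ε : ℝ) : ℂ)) (by simpa using hε0)).trans ?_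
    have e1 : ‖((1 + ε : ℝ) : ℂ)‖ = 1 + ε := by
      rw [Complex.norm_real, Real.norm_of_nonneg (by linarith)]
    have e2 : ‖((1 + ε : ℝ) : ℂ) - 1‖ = ε := by
      have : ((1 + ε : ℝ) : ℂ) - 1 = (ε : ℂ) := by push_cast; ring
      rw [this, Complex.norm_real, Real.norm_of_nonneg hε0.le]
    rw [e1, e2]
    have h5 : Real.log (1 + (1 + ε)) ≤ 1.5 := by
      have h6 : Real.log (1 + (1 + ε)) ≤ Real.log 3 := Real.log_le_log (by linarith) (by linarith)
      have h7 : Real.log 3 ≤ 1.5 := by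
        have e3 : Real.log 3 = Real.log 2 + Real.log 1.5 := by
          rw [← Real.log_mul (by norm_num) (by norm_num)]; norm_num
        have e4 : Real.log 1.5 ≤ 1.5 - 1 := Real.log_le_sub_one_of_pos (by norm_num)
        have e5 := Real.log_two_lt_d9
        rw [e3]; norm_num at e4 ⊢; linarith
      linarith
    have h8 : 2 / ε = 2 * (m : ℝ) ^ 8 := by rw [hε]; field_simp
    have h9 : (1 : ℝ) ≤ (m : ℝ) ^ 8 := one_le_pow₀ hm1
    rw [h8]
    linarith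
  -- the product character
  have hL3 : ‖LSeries (fun n => χ₃ n) ((1 + ε : ℝ) : ℂ)‖ ≤ C₀ * ((2 * B + 3) * m) := by
    have h5 := hCC (r₁ * r₂) (Nat.mul_ne_zero (by omega) (by omega)) χ₃ hprod ((1 + ε : ℝ) : ℂ)
      (by simpa using hε0)
    rw [Lj_zero_eq, zero_add, pow_one] at h5
    refine h5.trans ?_
    apply mul_le_mul_of_nonneg_left _ (by linarith)
    have e1 : ‖((1 + ε : ℝ) : ℂ)‖ = 1 + ε := by
      rw [Complex.norm_real, Real.norm_of_nonneg (by linarith)]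
    rw [e1]
    have hr1 : (1 : ℝ) ≤ r₁ := by exact_mod_cast (by omega : 1 ≤ r₁)
    have hr2 : (1 : ℝ) ≤ r₂ := by exact_mod_cast (by omega : 1 ≤ r₂)
    push_cast
    rw [Real.log_mul (by positivity) (by linarith), Real.log_mul (by linarith) (by linarith)]
    have h6 : Real.log r₁ ≤ B * m := by
      rw [← Real.log_exp ((B : ℝ) * m)]
      exact Real.log_le_log (by linarith) hB₁
    have h7 : Real.log r₂ ≤ B * m := by
      rw [← Real.log_exp ((B : ℝ) * m)]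
      exact Real.log_le_log (by linarith) hB₂
    have h8 : Real.log (1 + (1 + ε)) ≤ 2 :=
      le_trans (Real.log_le_log (by linarith) (by linarith : 1 + (1 + ε) ≤ 3)) log_three_le
    have : (0 : ℝ) ≤ B := Nat.cast_nonneg B
    linarith
  have hfin : ‖LSeries 1 ((1 + ε : ℝ) : ℂ)‖ * ‖LSeries (fun n => χ₁ n) ((1 + ε : ℝ) : ℂ)‖ *
      ‖LSeries (fun n => χ₂ n) ((1 + ε : ℝ) : ℂ)‖ * ‖LSeries (fun n => χ₃ n) ((1 + ε : ℝ) : ℂ)‖ ≤
      H / (m : ℝ) ^ 3 := by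
    calc _ ≤ (12 * (m : ℝ) ^ 8) * (G / (m : ℝ) ^ 6) * (G / (m : ℝ) ^ 6) * (C₀ * ((2 * B + 3) * m)) := by
          gcongr
      _ = H / (m : ℝ) ^ 3 := by
          rw [hH]
          field_simp
  have h10 : H / (m : ℝ) ^ 3 < 1 := by
    rw [div_lt_one (by positivity)]
    have : (m : ℝ) ≤ (m : ℝ) ^ 3 := by
      calc (m : ℝ) = (m : ℝ) ^ 1 := (pow_one _).symm
        _ ≤ (m : ℝ) ^ 3 := pow_le_pow_right₀ hm1 (by norm_num)
    linarith
  linarith

/-- There are arbitrarily large good scales. -/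
theorem exists_good (B : ℕ) : ∀ m₀ : ℕ, ∃ m : ℕ, m₀ ≤ m ∧ Good B m := by
  by_contra hcon
  push Not at hcon
  obtain ⟨m₀, hm₀⟩ := hcon
  obtain ⟨C₁, hC₁, hC⟩ := norm_LjChar_le 1
  set K : ℝ := C₁ * (B + 3) ^ 2 with hK
  have hK0 : 0 < K := by positivity
  have ev1 : ∀ᶠ m : ℕ in atTop, (m : ℝ) ^ 8 * Real.exp (-m) ≤ 1 / (128 * K) := by
    have := (Real.tendsto_pow_mul_exp_neg_atTop_nhds_zero 8).comp
      (tendsto_natCast_atTop_atTop (R := ℝ))
    exact this.eventually_le_const (show (0 : ℝ) < 1 / (128 * K) by positivity)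
  have ev2 : ∀ᶠ m : ℕ in atTop, ∀ (r₁ r₂ : ℕ) (χ₁ : DirichletCharacter ℂ r₁)
    (χ₂ : DirichletCharacter ℂ r₂), 2 ≤ r₁ → 2 ≤ r₂ →
    (r₁ : ℝ) ≤ Real.exp (B * ((m + 1 : ℕ) : ℝ)) →
    (r₂ : ℝ) ≤ Real.exp (B * ((m + 1 : ℕ) : ℝ)) → χ₁.IsPrimitive → χ₂.IsPrimitive → χ₁ ^ 2 = 1 →
    χ₂ ^ 2 = 1 →
    ‖LSeries (fun n => χ₁ n) ((1 + Real.exp (-((m + 1 : ℕ) : ℝ)) : ℝ) : ℂ)‖ ≤
      2 / ((m + 1 : ℕ) : ℝ) ^ 6 →
    ‖LSeries (fun n => χ₂ n) ((1 + Real.exp (-((m + 1 : ℕ) : ℝ)) : ℝ) : ℂ)‖ ≤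
      2 / ((m + 1 : ℕ) : ℝ) ^ 6 →
    (⟨r₁, χ₁⟩ : Σ r, DirichletCharacter ℂ r) = ⟨r₂, χ₂⟩ :=
    (tendsto_add_atTop_nat 1).eventually (repulsion B)
  obtain ⟨m₁, hm₁⟩ := eventually_atTop.1 (ev1.and (ev2.and (eventually_ge_atTop (max m₀ 20))))
  have hbadm : ∀ m, m₁ ≤ m → ∃ (r : ℕ) (χ : DirichletCharacter ℂ r), Bad B m r χ := by
    intro m hm
    have h1 : m₀ ≤ m := le_trans (le_max_left _ _) (hm₁ m hm).2.2
    have h2 := hm₀ m h1
    unfold Good at h2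
    push Not at h2
    exact h2
  obtain ⟨r, χ, hbad⟩ := hbadm m₁ le_rfl
  have hall : ∀ m, m₁ ≤ m → Bad B m r χ := by
    intro m hm
    induction m, hm using Nat.le_induction with
    | base => exact hbad
    | succ m hm ih =>
      obtain ⟨r', χ', hbad'⟩ := hbadm (m + 1) (by omega)
      obtain ⟨he, hrep, hmax⟩ := hm₁ m hm
      have hm20 : 20 ≤ m := le_trans (le_max_right _ _) hmax
      have hmr : (20 : ℝ) ≤ m := by exact_mod_cast hm20
      obtain ⟨a1, a2, a3, a4, a5⟩ := ih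
      obtain ⟨b1, b2, b3, b4, b5⟩ := hbad'
      have hrB : (r : ℝ) ≤ Real.exp (B * ((m + 1 : ℕ) : ℝ)) := by
        refine a2.trans (Real.exp_le_exp.2 ?_)
        push_cast
        have : (0 : ℝ) ≤ B := Nat.cast_nonneg B
        nlinarith
      have hL : ‖LSeries (fun n => χ n) ((1 + Real.exp (-((m + 1 : ℕ) : ℝ)) : ℝ) : ℂ)‖ ≤
          2 / ((m + 1 : ℕ) : ℝ) ^ 6 := by
        have hexp1 : Real.exp (-(m : ℝ)) ≤ 1 := Real.exp_le_one_iff.2 (by linarith)
        have hexp2 : Real.exp (-((m + 1 : ℕ) : ℝ)) ≤ Real.exp (-(m : ℝ)) := by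
          apply Real.exp_le_exp.2; push_cast; linarith
        have hp1 : 0 < Real.exp (-(m : ℝ)) := Real.exp_pos _
        have hp2 : 0 < Real.exp (-((m + 1 : ℕ) : ℝ)) := Real.exp_pos _
        have h1 := real_deriv_bound hC₁ hC (by omega : 1 ≤ m) a1 a2 (ne_one_of_primitive a1 a3)
          (x := 1 + Real.exp (-(m : ℝ))) (y := 1 + Real.exp (-((m + 1 : ℕ) : ℝ)))
          (by linarith) (by linarith) (by linarith) (by linarith)
        have h2 : |1 + Real.exp (-((m + 1 : ℕ) : ℝ)) - (1 + Real.exp (-(m : ℝ)))| ≤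
            Real.exp (-(m : ℝ)) := by
          rw [abs_le]
          constructor <;> linarith
        have h3 : C₁ * ((B + 3) * m) ^ 2 *
            |1 + Real.exp (-((m + 1 : ℕ) : ℝ)) - (1 + Real.exp (-(m : ℝ)))| ≤
            K * ((m : ℝ) ^ 2 * Real.exp (-(m : ℝ))) := by
          calc _ ≤ C₁ * ((B + 3) * m) ^ 2 * Real.exp (-(m : ℝ)) := by gcongr
            _ = _ := by rw [hK]; ring
        have h4 : K * ((m : ℝ) ^ 2 * Real.exp (-(m : ℝ))) ≤ 1 / (128 * (m : ℝ) ^ 6) := by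
          rw [le_div_iff₀ (by positivity)]
          have h5 : K * ((m : ℝ) ^ 8 * Real.exp (-(m : ℝ))) ≤ K * (1 / (128 * K)) := by gcongr
          have h6 : K * (1 / (128 * K)) = 1 / 128 := by field_simp
          have h7 : K * ((m : ℝ) ^ 2 * Real.exp (-(m : ℝ))) * (128 * (m : ℝ) ^ 6) =
              128 * (K * ((m : ℝ) ^ 8 * Real.exp (-(m : ℝ)))) := by ring
          rw [h7]
          linarith
        have h8 : 1 / (m : ℝ) ^ 6 + 1 / (128 * (m : ℝ) ^ 6) ≤ 2 / ((m + 1 : ℕ) : ℝ) ^ 6 := by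
          have h9 : ((m + 1 : ℕ) : ℝ) ^ 6 ≤ (21 / 20 * (m : ℝ)) ^ 6 := by
            apply pow_le_pow_left₀ (by positivity)
            push_cast; linarith
          have h10 : (21 / 20 * (m : ℝ)) ^ 6 ≤ 1.5 * (m : ℝ) ^ 6 := by
            rw [mul_pow]
            have : (0 : ℝ) ≤ (m : ℝ) ^ 6 := by positivity
            linarith
          have h11 : 1 / (m : ℝ) ^ 6 + 1 / (128 * (m : ℝ) ^ 6) = (129 / 128) / (m : ℝ) ^ 6 := by
            field_simp; norm_num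
          rw [h11, div_le_div_iff₀ (by positivity) (by positivity)]
          have : (0 : ℝ) ≤ (m : ℝ) ^ 6 := by positivity
          linarith
        calc _ ≤ ‖LSeries (fun n => χ n) ((1 + Real.exp (-(m : ℝ)) : ℝ) : ℂ)‖ +
              ‖LSeries (fun n => χ n) ((1 + Real.exp (-((m + 1 : ℕ) : ℝ)) : ℝ) : ℂ) -
                LSeries (fun n => χ n) ((1 + Real.exp (-(m : ℝ)) : ℝ) : ℂ)‖ := norm_le_insert' _ _
          _ ≤ 1 / (m : ℝ) ^ 6 + 1 / (128 * (m : ℝ) ^ 6) := by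
              gcongr
              exact h1.trans (h3.trans h4)
          _ ≤ _ := h8
      have hL' : ‖LSeries (fun n => χ' n) ((1 + Real.exp (-((m + 1 : ℕ) : ℝ)) : ℝ) : ℂ)‖ ≤
          2 / ((m + 1 : ℕ) : ℝ) ^ 6 := by
        refine b5.le.trans ?_
        gcongr
        norm_num
      have heq := hrep r r' χ χ' a1 b1 hrB b2 a3 b3 a4 b4 hL hL'
      cases heq
      exact ⟨b1, b2, b3, b4, b5⟩
  -- contradiction with `L(1, χ) ≠ 0`
  obtain ⟨a1, a2, a3, a4, a5⟩ := hall m₁ le_rfl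
  have hχ1 : χ ≠ 1 := ne_one_of_primitive a1 a3
  have hne : NeZero r := ⟨by omega⟩
  have hL1 := DirichletCharacter.LFunction_apply_one_ne_zero hχ1
  have hcont : Continuous (DirichletCharacter.LFunction χ) :=
    (DirichletCharacter.differentiable_LFunction hχ1).continuous
  have hexp : Tendsto (fun m : ℕ => ((1 + Real.exp (-(m : ℝ)) : ℝ) : ℂ)) atTop (nhds 1) := by
    have h1 : Tendsto (fun m : ℕ => Real.exp (-(m : ℝ))) atTop (nhds 0) :=
      Real.tendsto_exp_neg_atTop_nhds_zero.comp tendsto_natCast_atTop_atTop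
    have h2 : Tendsto (fun m : ℕ => 1 + Real.exp (-(m : ℝ))) atTop (nhds (1 + 0)) :=
      h1.const_add 1
    rw [add_zero] at h2
    have h3 := (Complex.continuous_ofReal.tendsto (1 : ℝ)).comp h2
    rw [Complex.ofReal_one] at h3
    exact h3
  have hlim : Tendsto (fun m : ℕ => ‖DirichletCharacter.LFunction χ
      ((1 + Real.exp (-(m : ℝ)) : ℝ) : ℂ)‖) atTop (nhds ‖DirichletCharacter.LFunction χ 1‖) :=
    ((hcont.tendsto 1).comp hexp).norm
  have hzero : Tendsto (fun m : ℕ => 1 / (m : ℝ) ^ 6) atTop (nhds 0) := by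
    have h1 : Tendsto (fun m : ℕ => (m : ℝ) ^ 6) atTop atTop :=
      (tendsto_pow_atTop (by norm_num)).comp (tendsto_natCast_atTop_atTop (R := ℝ))
    refine h1.inv_tendsto_atTop.congr (fun m => ?_)
    simp
  have hle : ‖DirichletCharacter.LFunction χ 1‖ ≤ 0 := by
    apply le_of_tendsto_of_tendsto hlim hzero
    filter_upwards [eventually_ge_atTop m₁] with m hm
    obtain ⟨_, _, _, _, h5⟩ := hall m hm
    rw [DirichletCharacter.LFunction_eq_LSeries χ (by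
      have : 0 < Real.exp (-(m : ℝ)) := Real.exp_pos _
      rw [Complex.ofReal_re]; linarith)]
    exact h5.le
  exact hL1 (norm_le_zero_iff.1 hle)

end Pool.Agent.MP89da58.S
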